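import Pool.Agent.Helper60.OG.Base

/-!
Project OG (MP_0bd1d1_al): Clifford theory over a valuation ring.
-/

namespace OG

variable {Ω E K R : Type*} [Group E] [MulAction E Ω] [Field K] [CommRing R]
  [Algebra R K] {k V : Type*} [Field k] [AddCommGroup V] [Module k V]

variable (K) in
/-- Functions of weight `l` under `e`. -/
def Wt {Ω E R k V : Type*} [Group E] [MulAction E Ω] [Field K] [CommRing R]
    [Algebra R K] [Field k] [AddCommGroup V] [Module k V] (e : V → E) (ψ : AddChar k R)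
    (l : Module.Dual k V) : Submodule R (Ω → K) where
  carrier := {f | ∀ v, act (e v) f = ψ (l v) • f}
  zero_mem' := by
    intro v
    rw [act_zero, smul_zero]
  add_mem' := by
    intro a b ha hb v
    rw [act_add, ha v, hb v, smul_add]
  smul_mem' := by
    intro a f hf v
    rw [act_rsmul, hf v, smul_comm]

theorem mem_Wt {e : V → E} {ψ : AddChar k R} {l : Module.Dual k V} {f : Ω → K} :
    f ∈ Wt K e ψ l ↔ ∀ v, act (e v) f = ψ (l v) • f := Iff.rfl

theorem Wt_conj {e : V → E} {ψ : AddChar k R} {l l₀ : Module.Dual k V} (g : E) (τ : V → V)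
    (h : ∀ v, g * e v * g⁻¹ = e (τ v)) (hl : ∀ v, l (τ v) = l₀ v) {f : Ω → K}
    (hf : f ∈ Wt K e ψ l) : act g⁻¹ f ∈ Wt K e ψ l₀ := by
  intro v
  have h1 : e v * g⁻¹ = g⁻¹ * e (τ v) := by
    rw [← h v]
    group
  rw [← act_mul, h1, act_mul, hf (τ v), act_rsmul, hl]

theorem Wt_translate {e : V → E} {ψ : AddChar k R} {l : Module.Dual k V} {f : Ω → K}
    (hf : f ∈ Wt K e ψ l) (v : V) (w : Ω) (hw : f w = 0) : f (e v • w) = 0 := by
  have h1 : act (e v) f (e v • w) = f w := act_at _ _ _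
  rw [hf v, Pi.smul_apply, hw] at h1
  have h2 : ψ (-(l v)) • (ψ (l v) • f (e v • w)) = ψ (-(l v)) • (0 : K) := by rw [h1]
  rw [smul_smul, ← AddChar.map_add_eq_mul, neg_add_cancel, AddChar.map_zero_eq_one, one_smul,
    smul_zero] at h2
  exact h2

theorem Wt_zero_on [IsDomain R] [IsFractionRing R K] {e : V → E} {ψ : AddChar k R}
    (hψ : ∃ c, ψ c ≠ 1) {l : Module.Dual k V} {f : Ω → K}
    (hf : f ∈ Wt K e ψ l) (w : Ω) (hw : f w ≠ 0) (U : Submodule k V)
    (hU : ∀ v ∈ U, e v • w = w) (v : V) (hv : v ∈ U) : l v = 0 := by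
  have key : ∀ u ∈ U, ψ (l u) = 1 := by
    intro u hu
    have h1 : act (e u) f (e u • w) = f w := act_at _ _ _
    rw [hU u hu, hf u, Pi.smul_apply, Algebra.smul_def] at h1
    have h2 : algebraMap R K (ψ (l u)) = 1 := by
      have : algebraMap R K (ψ (l u)) * f w = 1 * f w := by rw [h1, one_mul]
      exact mul_right_cancel₀ hw this
    exact IsFractionRing.injective R K (by rw [h2, map_one])
  by_contra h0
  obtain ⟨c, hc⟩ := hψ
  apply hc
  have := key ((c / l v) • v) (U.smul_mem _ hv)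
  rwa [map_smul, smul_eq_mul, div_mul_cancel₀ c h0] at this

theorem exists_decomp [Finite k] [Finite V] [IsDomain R] (e : V → E)
    (he : ∀ v w, e (v + w) = e v * e w) (ψ : AddChar k R) (hψ : ∃ c, ψ c ≠ 1)
    (hu : IsUnit ((Nat.card (Module.Dual k V) : ℕ) : R)) (M : Submodule R (Ω → K))
    (hM : ∀ v, ∀ f ∈ M, act (e v) f ∈ M) (f : Ω → K) (hf : f ∈ M) :
    f ∈ ⨆ l : Module.Dual k V, M ⊓ Wt K e ψ l := by
  classical
  have : Fintype V := Fintype.ofFinite V
  have : Finite (Module.Dual k V) := Module.finite_of_finite k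
  have : Fintype (Module.Dual k V) := Fintype.ofFinite _
  have he0 : e 0 = 1 := by
    have := he 0 0
    rw [add_zero] at this
    exact left_eq_mul.1 this
  obtain ⟨u, hu'⟩ := hu
  set g : Module.Dual k V → (Ω → K) := fun l => ∑ v : V, ψ (-(l v)) • act (e v) f with hg
  have hgW : ∀ l, g l ∈ M ⊓ Wt K e ψ l := by
    intro l
    constructor
    · exact Submodule.sum_mem _ (fun v _ => Submodule.smul_mem _ _ (hM v f hf))
    · intro w
      have h1 : act (e w) (g l) = ∑ v : V, ψ (-(l v)) • act (e (w + v)) f := by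
        rw [← actL_apply (R := R), hg, map_sum]
        refine Finset.sum_congr rfl (fun v _ => ?_)
        rw [map_smul, actL_apply, he, act_mul]
      rw [h1, hg, Finset.smul_sum]
      refine Fintype.sum_equiv (Equiv.addLeft w) _ _ (fun v => ?_)
      have h2 : ψ (-(l v)) = ψ (l w) * ψ (-(l (w + v))) := by
        rw [← AddChar.map_add_eq_mul]
        congr 1
        rw [LinearMap.map_add]
        ring
      rw [Equiv.coe_addLeft, smul_smul, ← h2]
  have hsum : ∑ l : Module.Dual k V, g l = (Nat.card (Module.Dual k V) : R) • f := by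
    rw [hg, Finset.sum_comm]
    have hv : ∀ v : V, v ≠ 0 → ∑ l : Module.Dual k V, ψ (-(l v)) = 0 := by
      intro v hv
      obtain ⟨c, hc⟩ := hψ
      obtain ⟨l₀, hl₀⟩ : ∃ l₀ : Module.Dual k V, l₀ v = -c := by
        obtain ⟨m, hm⟩ : ∃ m : Module.Dual k V, m v ≠ 0 := by
          by_contra hcon
          push Not at hcon
          exact hv ((Module.forall_dual_apply_eq_zero_iff k v).1 hcon)
        refine ⟨(-c / m v) • m, ?_⟩
        rw [LinearMap.smul_apply, smul_eq_mul, div_mul_cancel₀ _ hm]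
      have h1 : ∑ l : Module.Dual k V, ψ (-(l v))
          = ∑ l : Module.Dual k V, ψ (-(l₀ v)) * ψ (-(l v)) := by
        refine (Fintype.sum_equiv (Equiv.addLeft l₀) _ _ (fun l => ?_)).symm
        rw [Equiv.coe_addLeft, ← AddChar.map_add_eq_mul, LinearMap.add_apply, neg_add]
      rw [← Finset.mul_sum, hl₀, neg_neg] at h1
      have h2 : (ψ c - 1) * ∑ l : Module.Dual k V, ψ (-(l v)) = 0 := by
        rw [sub_mul, one_mul, ← h1, sub_self]
      rcases mul_eq_zero.1 h2 with h3 | h3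
      · exact absurd (sub_eq_zero.1 h3) hc
      · exact h3
    rw [Finset.sum_eq_single (0 : V)]
    · simp only [map_zero, neg_zero, AddChar.map_zero_eq_one, one_smul, he0, act_one,
        Finset.sum_const, Finset.card_univ]
      rw [Nat.card_eq_fintype_card, Nat.cast_smul_eq_nsmul]
    · intro v _ hv0
      rw [← Finset.sum_smul, hv v hv0, zero_smul]
    · intro h
      exact absurd (Finset.mem_univ _) h
  have hfin : f = (↑u⁻¹ : R) • ∑ l : Module.Dual k V, g l := by
    rw [hsum, ← hu', smul_smul, Units.inv_mul, one_smul]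
  rw [hfin]
  refine Submodule.smul_mem _ _ (Submodule.sum_mem _ (fun l _ => ?_))
  exact Submodule.mem_iSup_of_mem l (hgW l)

variable [IsLocalRing R]

theorem Bd_clifford [Finite k] [Finite V] [IsDomain R] (e : V → E)
    (he : ∀ v w, e (v + w) = e v * e w) (ψ : AddChar k R) (hψ : ∃ c, ψ c ≠ 1)
    (hu : IsUnit ((Nat.card (Module.Dual k V) : ℕ) : R)) {H : Set E} {S : Set Ω}
    (heH : ∀ v, e v ∈ H) {ι : Type*} (T : Finset ι) (L : ι → Module.Dual k V) (n : ι → ℕ)
    (h1 : ∀ c ∈ T, ∃ (H₀ : Set E) (B₀ : Set Ω), Bd R K H₀ B₀ (n c) ∧ H₀ ⊆ H ∧ Stb H₀ B₀ ∧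
      (∀ h ∈ H₀, ∀ f : Ω → K, f ∈ Wt K e ψ (L c) → act h f ∈ Wt K e ψ (L c)) ∧
      (∀ f : Ω → K, f ∈ Wt K e ψ (L c) → f ∈ supS R K S → (∀ w ∈ B₀, f w = 0) → f = 0))
    (h2 : ∀ l, (∀ f : Ω → K, f ∈ Wt K e ψ l → f ∈ supS R K S → f = 0) ∨
      ∃ c ∈ T, ∃ g ∈ H, g⁻¹ ∈ H ∧ ∀ f : Ω → K, f ∈ Wt K e ψ l → act g⁻¹ f ∈ Wt K e ψ (L c)) :
    Bd R K H S (∑ c ∈ T, n c) := by
  intro N hN r
  refine steps_le N (fun c i => N i ⊓ Wt K e ψ (L c)) T n r ?_ ?_
  · intro i hi
    have hm := hN.mono (Nat.le_succ i)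
    apply le_antisymm hm
    intro x hx
    have hx1 := exists_decomp e he ψ hψ hu (N (i + 1))
      (fun v f hf => hN.stab (e v) (heH v) (i + 1) f hf) x hx
    refine (iSup_le ?_ : (⨆ l : Module.Dual k V, N (i + 1) ⊓ Wt K e ψ l) ≤ N i) hx1
    intro l y hy
    rcases h2 l with h | ⟨c, hc, g, hg, hg', hgf⟩
    · rw [h y hy.2 (hN.supp _ y hy.1)]
      exact zero_mem _
    · have h3 : act g⁻¹ y ∈ N (i + 1) ⊓ Wt K e ψ (L c) :=
        ⟨hN.stab _ hg' _ y hy.1, hgf y hy.2⟩
      have h4 : N i ⊓ Wt K e ψ (L c) = N (i + 1) ⊓ Wt K e ψ (L c) := hi c hc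
      rw [← h4] at h3
      have h5 := hN.stab g hg i _ h3.1
      rwa [act_act_inv] at h5
  · intro c hc
    obtain ⟨H₀, B₀, hB, hH, hSt, hW, hinj⟩ := h1 c hc
    refine steps_le_one _ (fun i => (N i ⊓ Wt K e ψ (L c)).map (res R B₀)) (n c) r ?_
      (hB _ ?_ r)
    · intro i hA
      have hA' : (N i ⊓ Wt K e ψ (L c)).map (res R B₀)
          = (N (i + 1) ⊓ Wt K e ψ (L c)).map (res R B₀) := hA
      have hm : N i ⊓ Wt K e ψ (L c) ≤ N (i + 1) ⊓ Wt K e ψ (L c) :=
        inf_le_inf_right _ (hN.mono (Nat.le_succ i))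
      apply le_antisymm hm
      intro x hx
      have hx1 : res R B₀ x ∈ (N i ⊓ Wt K e ψ (L c)).map (res R B₀) := by
        rw [hA']
        exact Submodule.mem_map_of_mem hx
      obtain ⟨y, hy, hyx⟩ := (Submodule.mem_map).1 hx1
      have hxy : x - y ∈ N (i + 1) ⊓ Wt K e ψ (L c) := Submodule.sub_mem _ hx (hm hy)
      have h0 : x - y = 0 := by
        apply hinj _ hxy.2 (hN.supp _ _ hxy.1)
        intro w hw
        have e1 := congrFun hyx w
        rw [res_mem _ hw, res_mem _ hw] at e1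
        rw [Pi.sub_apply, e1, sub_self]
      rw [sub_eq_zero] at h0
      rw [h0]
      exact hy
    · refine ⟨?_, ?_, ?_, ?_⟩
      · intro i j hij
        exact Submodule.map_mono (inf_le_inf_right _ (hN.mono hij))
      · intro i f hf w hw
        obtain ⟨y, hy, rfl⟩ := (Submodule.mem_map).1 hf
        exact res_not _ hw
      · intro i a ha f hf
        obtain ⟨y, hy, rfl⟩ := (Submodule.mem_map).1 hf
        rw [← map_smul]
        exact Submodule.mem_map_of_mem ⟨hN.red i a ha y hy.1, Submodule.smul_mem _ _ hy.2⟩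
      · intro g hg i f hf
        obtain ⟨y, hy, rfl⟩ := (Submodule.mem_map).1 hf
        rw [act_res hSt hg]
        exact Submodule.mem_map_of_mem ⟨hN.stab g (hH hg) i y hy.1, hW g hg y hy.2⟩

end OG
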