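import Pool.Agent.Helper60.OG.Main

/-!
Project OG (MP_0bd1d1_al): the bound for the orthogonal group and for subgroups
obtained by passing to subgroups of index two.
-/

namespace OG

open QuadraticMap Module
open OG.Geo1 OG.Geo2 OG.Geo3 OG.WA

variable {k X K R : Type*} [Field k] [AddCommGroup X] [Module k X] [FiniteDimensional k X]
  {Q : QuadraticForm k X}
  [Field K] [CommRing R] [IsDomain R] [Algebra R K] [IsFractionRing R K]

/-- The orthogonal group. -/
def Ort {k X : Type*} [Field k] [AddCommGroup X] [Module k X] (Q : QuadraticForm k X) :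
    Subgroup (X ≃ₗ[k] X) where
  carrier := {g | ∀ x, Q (g x) = Q x}
  one_mem' := fun _ => rfl
  mul_mem' := by
    intro g h hg hh x
    change Q (g (h x)) = Q x
    rw [hg, hh]
  inv_mem' := by
    intro g hg x
    have h1 : g (g⁻¹ x) = x := g.apply_symm_apply x
    have h2 := hg (g⁻¹ x)
    rw [h1] at h2
    exact h2.symm

omit [FiniteDimensional k X] in
theorem mem_Ort {g : X ≃ₗ[k] X} : g ∈ Ort Q ↔ ∀ x, Q (g x) = Q x := Iff.rfl

omit [FiniteDimensional k X] in
theorem Ort_le (hQ : ND Q ⊤) : (Ort Q : Set (X ≃ₗ[k] X)) ⊆ Gr Q ⊤ := by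
  intro g hg
  refine ⟨hg, fun x => Submodule.mem_top, ?_⟩
  intro x hx
  have hpol : ∀ u v, polar Q (g u) (g v) = polar Q u v := by
    intro u v
    unfold polar
    rw [← map_add, hg, hg, hg]
  have hgx : ∀ y, polar Q (g x) y = 0 := by
    intro y
    obtain ⟨z, rfl⟩ := g.surjective y
    rw [hpol]
    exact hx z Submodule.mem_top
  by_contra hne
  have hz0 : g x - x ≠ 0 := sub_ne_zero.2 hne
  have hzp : ∀ y, polar Q (g x - x) y = 0 := by
    intro y
    rw [polar_sub_left, hgx, hx y Submodule.mem_top, sub_zero]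
  have hzq : Q (g x - x) = 0 := by
    have h2 : polar Q x x = 0 := hx x Submodule.mem_top
    rw [polar_self] at h2
    rw [q_sub', hg x, hgx x, sub_zero, ← two_nsmul]
    exact h2
  obtain ⟨y, _, hy⟩ := hQ _ Submodule.mem_top hz0 hzq
  exact hy (hzp y)

section

variable [ValuationRing R] [Finite k]

theorem Bd_chain {ψ : AddChar k R} (hQ : ND Q ⊤) (hψ : ∃ c, ψ c ≠ 1)
    (hq : IsUnit ((Nat.card k : ℕ) : R)) (j : ℕ) (s : ℕ)
    (C : ℕ → Subgroup (X ≃ₗ[k] X)) (hC0 : C 0 = Ort Q)
    (hC : ∀ i < s, C (i + 1) ≤ C i ∧ (C (i + 1)).relIndex (C i) ≤ 2) :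
    C s ≤ Ort Q ∧
      Bd R K (C s : Set (X ≃ₗ[k] X)) (Sk Q ⊤ j) (2 ^ s * 3 ^ finrank k X) := by
  induction s with
  | zero =>
    refine ⟨le_of_eq hC0, ?_⟩
    rw [pow_zero, one_mul, hC0]
    have h := Bd_main (K := K) (R := R) (Q := Q) hψ hq (finrank k X) ⊤ (finrank_top k X) hQ j
    intro N hN r
    have hgr : ∀ g ∈ Gr Q (⊤ : Submodule k X), g ∈ Ort Q := fun g hg => hg.1
    exact h N ⟨hN.mono, hN.supp, hN.red, fun g hg => hN.stab g (hgr g hg)⟩ r
  | succ s ih =>
    obtain ⟨hle, hB⟩ := ih (fun i hi => hC i (Nat.lt_succ_of_lt hi))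
    obtain ⟨h1, h2⟩ := hC s (Nat.lt_succ_self s)
    refine ⟨le_trans h1 hle, ?_⟩
    have : Finite X := Module.finite_of_finite k
    have hfin : Finite (X ≃ₗ[k] X) :=
      Finite.of_injective (fun g : X ≃ₗ[k] X => (g : X → X)) DFunLike.coe_injective
    have h0 : (C (s + 1)).relIndex (C s) ≠ 0 := Subgroup.index_ne_zero_of_finite
    have hcase : (C (s + 1)).relIndex (C s) = 1 ∨ (C (s + 1)).relIndex (C s) = 2 := by omega
    rcases hcase with h3 | h3
    · have h4 : C (s + 1) = C s := le_antisymm h1 (Subgroup.relIndex_eq_one.1 h3)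
      rw [h4]
      refine Bd_mono hB subset_rfl subset_rfl ?_
      exact Nat.mul_le_mul_right _ (Nat.pow_le_pow_right (by norm_num) (Nat.le_succ s))
    · obtain ⟨a, ha⟩ := Subgroup.index_eq_two_iff.1 h3
      have hmem : ∀ b : C s, b ∈ (C (s + 1)).subgroupOf (C s) ↔ (b : X ≃ₗ[k] X) ∈ C (s + 1) :=
        fun b => Subgroup.mem_subgroupOf
      have haN : a ∉ (C (s + 1)).subgroupOf (C s) := by
        intro h
        have h5 := ha 1
        rw [one_mul] at h5
        rcases h5 with h5 | h5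
        · exact h5.2 (one_mem _)
        · exact h5.2 h
      have hor : ∀ b : C s, b * a ∈ (C (s + 1)).subgroupOf (C s) ∨
          b ∈ (C (s + 1)).subgroupOf (C s) := by
        intro b
        rcases ha b with h5 | h5
        · exact Or.inl h5.1
        · exact Or.inr h5.1
      have key := Bd_index2 (O := (C s : Set (X ≃ₗ[k] X))) (G := (C (s + 1) : Set (X ≃ₗ[k] X)))
        (a : X ≃ₗ[k] X) hB ?_ ?_ ?_ ?_
      · rw [← mul_assoc] at key
        rwa [pow_succ, mul_comm (2 ^ s) 2]
      · intro o ho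
        by_cases hoG : o ∈ (C (s + 1) : Set (X ≃ₗ[k] X))
        · exact Or.inl hoG
        · right
          rcases hor (⟨o, ho⟩⁻¹ : C s) with h5 | h5
          · have h6 := inv_mem h5
            rw [hmem] at h6
            refine ⟨_, h6, ?_⟩
            simp
          · exfalso
            apply hoG
            have h6 := inv_mem h5
            rw [hmem] at h6
            simpa using h6
      · rcases hor a with h5 | h5
        · rw [hmem] at h5
          exact h5
        · exact absurd h5 haN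
      · intro g hg
        rcases hor (a⁻¹ * ⟨g, h1 hg⟩ : C s) with h5 | h5
        · rw [hmem] at h5
          exact h5
        · exfalso
          apply haN
          have h6 : (⟨g, h1 hg⟩ : C s) ∈ (C (s + 1)).subgroupOf (C s) := (hmem _).2 hg
          have h7 := mul_mem h5 (inv_mem h6)
          rw [mul_inv_cancel_right] at h7
          simpa using inv_mem h7
      · intro w
        exact Sk_stb _ (Ort_le hQ (hle a.2)) w

end

/-- An additive character of a finite field from a root of unity. -/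
theorem exists_char {k R : Type*} [Field k] [CommRing R] (p : ℕ) [Fact p.Prime] [CharP k p]
    (ζ : R) (hζ : IsPrimitiveRoot ζ p) : ∃ ψ : AddChar k R, ∃ c, ψ c ≠ 1 := by
  let _ : Algebra (ZMod p) k := ZMod.algebra k p
  have hp : p ≠ 0 := (Fact.out : p.Prime).ne_zero
  have : NeZero p := ⟨hp⟩
  obtain ⟨φ, hφ⟩ : ∃ φ : Module.Dual (ZMod p) k, φ 1 ≠ 0 := by
    by_contra hcon
    push Not at hcon
    exact one_ne_zero ((Module.forall_dual_apply_eq_zero_iff (ZMod p) (1 : k)).1 hcon)
  refine ⟨(AddChar.zmodChar p hζ.pow_eq_one).compAddMonoidHom φ.toAddMonoidHom,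
    (φ 1)⁻¹ • 1, ?_⟩
  rw [AddChar.compAddMonoidHom_apply]
  have h1 : φ.toAddMonoidHom ((φ 1)⁻¹ • (1 : k)) = 1 := by
    change φ ((φ 1)⁻¹ • (1 : k)) = 1
    rw [map_smul, smul_eq_mul, inv_mul_cancel₀ hφ]
  rw [h1, AddChar.zmodChar_apply]
  have hp2 : 1 < p := (Fact.out : p.Prime).one_lt
  have : Fact (1 < p) := ⟨hp2⟩
  rw [ZMod.val_one, pow_one]
  exact hζ.ne_one hp2

end OG
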