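import Pool.Agent.Helper60.OG.Defs

/-!
Project OG (MP_0bd1d1_al): chains of function lattices, basic bounds.
-/

namespace OG

section act

variable {Ω E K R : Type*} [Group E] [MulAction E Ω] [Field K] [CommRing R] [Algebra R K]

theorem act_apply (g : E) (f : Ω → K) (w : Ω) : act g f w = f (g⁻¹ • w) := rfl

theorem act_at (g : E) (f : Ω → K) (w : Ω) : act g f (g • w) = f w := by
  simp [act]

theorem act_mul (g h : E) (f : Ω → K) : act (g * h) f = act g (act h f) := by
  funext w
  simp [act, mul_smul]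

theorem act_one (f : Ω → K) : act (1 : E) f = f := by
  funext w
  simp [act]

theorem act_add (g : E) (f f' : Ω → K) : act g (f + f') = act g f + act g f' := rfl

theorem act_zero (g : E) : act g (0 : Ω → K) = 0 := rfl

theorem act_rsmul (g : E) (a : R) (f : Ω → K) : act g (a • f) = a • act g f := rfl

theorem act_inv_act (g : E) (f : Ω → K) : act g⁻¹ (act g f) = f := by
  rw [← act_mul, inv_mul_cancel, act_one]

theorem act_act_inv (g : E) (f : Ω → K) : act g (act g⁻¹ f) = f := by
  rw [← act_mul, mul_inv_cancel, act_one]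

variable (R) in
/-- The action as a linear map. -/
def actL (g : E) : (Ω → K) →ₗ[R] (Ω → K) where
  toFun := act g
  map_add' _ _ := rfl
  map_smul' _ _ := rfl

theorem actL_apply (g : E) (f : Ω → K) : actL R g f = act g f := rfl

theorem Stb_inv {H : Set E} {S : Set Ω} (h : Stb H S) {g : E} (hg : g ∈ H) (w : Ω) :
    g⁻¹ • w ∈ S ↔ w ∈ S := by
  have := h g hg (g⁻¹ • w)
  rw [smul_inv_smul] at this
  exact this.symm

end act

section steps

theorem mem_steps {M : Type*} {N : ℕ → M} {r i : ℕ} :
    i ∈ steps N r ↔ i < r ∧ N i ≠ N (i + 1) := by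
  simp [steps]

theorem steps_le {M M' : Type*} {ι : Type*} (N : ℕ → M) (F : ι → ℕ → M') (s : Finset ι)
    (n : ι → ℕ) (r : ℕ)
    (h : ∀ i, (∀ c ∈ s, F c i = F c (i + 1)) → N i = N (i + 1))
    (hn : ∀ c ∈ s, (steps (F c) r).card ≤ n c) : (steps N r).card ≤ ∑ c ∈ s, n c := by
  classical
  calc (steps N r).card ≤ (s.biUnion (fun c => steps (F c) r)).card := by
        apply Finset.card_le_card
        intro i hi
        rw [mem_steps] at hi
        rw [Finset.mem_biUnion]
        by_contra hc
        push Not at hc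
        apply hi.2
        apply h
        intro c hcs
        by_contra hne
        exact hc c hcs (mem_steps.2 ⟨hi.1, hne⟩)
    _ ≤ ∑ c ∈ s, (steps (F c) r).card := Finset.card_biUnion_le
    _ ≤ ∑ c ∈ s, n c := Finset.sum_le_sum hn

theorem steps_le_two {M M₁ M₂ : Type*} (N : ℕ → M) (A : ℕ → M₁) (B : ℕ → M₂)
    (a b r : ℕ) (h : ∀ i, A i = A (i + 1) → B i = B (i + 1) → N i = N (i + 1))
    (ha : (steps A r).card ≤ a) (hb : (steps B r).card ≤ b) : (steps N r).card ≤ a + b := by
  classical
  calc (steps N r).card ≤ (steps A r ∪ steps B r).card := by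
        apply Finset.card_le_card
        intro i hi
        rw [mem_steps] at hi
        rw [Finset.mem_union]
        by_contra hc
        push Not at hc
        apply hi.2
        apply h
        · by_contra hne
          exact hc.1 (mem_steps.2 ⟨hi.1, hne⟩)
        · by_contra hne
          exact hc.2 (mem_steps.2 ⟨hi.1, hne⟩)
    _ ≤ (steps A r).card + (steps B r).card := Finset.card_union_le _ _
    _ ≤ a + b := Nat.add_le_add ha hb

theorem steps_le_one {M M₁ : Type*} (N : ℕ → M) (A : ℕ → M₁)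
    (a r : ℕ) (h : ∀ i, A i = A (i + 1) → N i = N (i + 1))
    (ha : (steps A r).card ≤ a) : (steps N r).card ≤ a := by
  refine le_trans (Finset.card_le_card ?_) ha
  intro i hi
  rw [mem_steps] at hi ⊢
  exact ⟨hi.1, fun e => hi.2 (h i e)⟩

end steps

section Bd

variable {Ω E K R : Type*} [Group E] [MulAction E Ω] [Field K] [CommRing R] [IsLocalRing R]
  [Algebra R K] {H H' : Set E} {S S' S₁ S₂ : Set Ω} {n n' n₁ n₂ : ℕ}

theorem Bd_mono (h : Bd R K H S n) (hH : H ⊆ H') (hS : S' ⊆ S) (hn : n ≤ n') :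
    Bd R K H' S' n' := by
  intro N hN r
  refine le_trans (h N ⟨hN.mono, ?_, hN.red, ?_⟩ r) hn
  · intro i f hf w hw
    exact hN.supp i f hf w (fun h => hw (hS h))
  · intro g hg
    exact hN.stab g (hH hg)

theorem Bd_empty : Bd R K H (∅ : Set Ω) 0 := by
  intro N hN r
  have hz : ∀ i, N i = ⊥ := by
    intro i
    rw [Submodule.eq_bot_iff]
    intro f hf
    funext w
    exact hN.supp i f hf w (Set.notMem_empty w)
  rw [Nat.le_zero, Finset.card_eq_zero, Finset.eq_empty_iff_forall_notMem]
  intro i hi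
  rw [mem_steps] at hi
  exact hi.2 (by rw [hz, hz])

theorem Bd_single [IsDomain R] [ValuationRing R] [IsFractionRing R K] (w₀ : Ω) :
    Bd R K H ({w₀} : Set Ω) 1 := by
  intro N hN r
  have key : ∀ i, N i ≠ N (i + 1) → ∀ j, N j ≤ N (i + 1) := by
    intro i hi j
    have hlt : ¬ (N (i + 1) ≤ N i) := fun hle => hi (le_antisymm (hN.mono (Nat.le_succ i)) hle)
    obtain ⟨x, hx, hxi⟩ := SetLike.not_le_iff_exists.1 hlt
    have hx0 : x w₀ ≠ 0 := by
      intro h0
      apply hxi
      have : x = 0 := by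
        funext w
        by_cases hw : w = w₀
        · rw [hw, h0]; rfl
        · exact hN.supp _ x hx w hw
      rw [this]
      exact zero_mem _
    intro y hy
    have ext : ∀ (a : R), ∀ u ∈ N (i + 1) ⊔ N j, ∀ v ∈ N (i + 1) ⊔ N j,
        v w₀ = algebraMap R K a * u w₀ → v = a • u := by
      have hs : ∀ u ∈ N (i + 1) ⊔ N j, ∀ w, w ≠ w₀ → u w = 0 := by
        intro u hu w hw
        rw [Submodule.mem_sup] at hu
        obtain ⟨u1, h1, u2, h2, rfl⟩ := hu
        rw [Pi.add_apply, hN.supp _ u1 h1 w hw, hN.supp _ u2 h2 w hw, add_zero]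
      intro a u hu v hv h
      funext w
      by_cases hw : w = w₀
      · rw [hw, h, Pi.smul_apply, Algebra.smul_def]
      · rw [hs v hv w hw, Pi.smul_apply, hs u hu w hw, smul_zero]
    have hx' : x ∈ N (i + 1) ⊔ N j := Submodule.mem_sup_left hx
    have hy' : y ∈ N (i + 1) ⊔ N j := Submodule.mem_sup_right hy
    rcases ValuationRing.isInteger_or_isInteger R (y w₀ / x w₀) with ⟨a, ha⟩ | ⟨a, ha⟩
    · have : y = a • x := ext a x hx' y hy' (by rw [ha]; field_simp)
      rw [this]
      exact Submodule.smul_mem _ _ hx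
    · rw [inv_div] at ha
      by_cases hy0 : y w₀ = 0
      · have : y = (0 : R) • x := ext 0 x hx' y hy' (by rw [hy0]; simp)
        rw [this, zero_smul]
        exact zero_mem _
      have hxy : x = a • y := ext a y hy' x hx' (by rw [ha]; field_simp)
      by_cases hau : IsUnit a
      · obtain ⟨u, rfl⟩ := hau
        have : y = (↑u⁻¹ : R) • x := by
          rw [hxy, smul_smul, Units.inv_mul, one_smul]
        rw [this]
        exact Submodule.smul_mem _ _ hx
      · exfalso
        apply hxi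
        have := hN.red j a ((IsLocalRing.mem_maximalIdeal a).2 hau) y hy
        rw [← hxy] at this
        exact hN.mono (Nat.zero_le i) this
  apply Finset.card_le_one.2
  have main : ∀ i ∈ steps N r, ∀ i' ∈ steps N r, ¬ (i < i') := by
    intro i hi i' hi' hlt
    rw [mem_steps] at hi hi'
    apply hi'.2
    apply le_antisymm (hN.mono (Nat.le_succ i'))
    exact le_trans (key i hi.2 (i' + 1)) (hN.mono hlt)
  intro i hi i' hi'
  rcases lt_trichotomy i i' with h | h | h
  · exact absurd h (main i hi i' hi')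
  · exact h
  · exact absurd h (main i' hi' i hi)

open Classical in
/-- Restriction of functions to `T`. -/
noncomputable def res (R : Type*) {Ω K : Type*} [Field K] [CommRing R] [Algebra R K]
    (T : Set Ω) : (Ω → K) →ₗ[R] (Ω → K) where
  toFun f := fun w => if w ∈ T then f w else 0
  map_add' f f' := by
    funext w
    by_cases h : w ∈ T <;> simp [h]
  map_smul' a f := by
    funext w
    by_cases h : w ∈ T <;> simp [h]

theorem res_mem {T : Set Ω} (f : Ω → K) {w : Ω} (h : w ∈ T) : res R T f w = f w := by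
  simp [res, h]

theorem res_not {T : Set Ω} (f : Ω → K) {w : Ω} (h : w ∉ T) : res R T f w = 0 := by
  simp [res, h]

theorem act_res {T : Set Ω} (hT : Stb H T) {g : E} (hg : g ∈ H) (f : Ω → K) :
    act g (res R T f) = res R T (act g f) := by
  funext w
  rw [act_apply]
  by_cases h : w ∈ T
  · rw [res_mem _ ((Stb_inv hT hg w).2 h), res_mem _ h, act_apply]
  · rw [res_not _ (fun h' => h ((Stb_inv hT hg w).1 h')), res_not _ h]

/-- Functions supported on `T`. -/
def supS (R K : Type*) {Ω : Type*} [Field K] [CommRing R] [Algebra R K] (T : Set Ω) :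
    Submodule R (Ω → K) where
  carrier := {f | ∀ w, w ∉ T → f w = 0}
  zero_mem' := fun _ _ => rfl
  add_mem' := by
    intro a b ha hb w hw
    rw [Pi.add_apply, ha w hw, hb w hw, add_zero]
  smul_mem' := by
    intro a f hf w hw
    rw [Pi.smul_apply, hf w hw, smul_zero]

theorem mem_supS {T : Set Ω} {f : Ω → K} : f ∈ supS R K T ↔ ∀ w, w ∉ T → f w = 0 := Iff.rfl

theorem Bd_union (hS : Stb H S₁) (h1 : Bd R K H S₁ n₁) (h2 : Bd R K H S₂ n₂) :
    Bd R K H (S₁ ∪ S₂) (n₁ + n₂) := by
  intro N hN r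
  have hSc : Stb H S₁ᶜ := by
    intro g hg w
    rw [Set.mem_compl_iff, Set.mem_compl_iff, hS g hg w]
  refine steps_le_two N (fun i => N i ⊓ supS R K S₁) (fun i => (N i).map (res R S₁ᶜ)) n₁ n₂ r
    ?_ (h1 _ ?_ r) (h2 _ ?_ r)
  · intro i hA hB
    apply le_antisymm (hN.mono (Nat.le_succ i))
    intro x hx
    have hx1 : res R S₁ᶜ x ∈ (N i).map (res R S₁ᶜ) := by
      have : (N i).map (res R S₁ᶜ) = (N (i + 1)).map (res R S₁ᶜ) := hB
      rw [this]
      exact Submodule.mem_map_of_mem hx
    obtain ⟨y, hy, hyx⟩ := (Submodule.mem_map).1 hx1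
    have hxy : x - y ∈ N (i + 1) ⊓ supS R K S₁ := by
      refine ⟨Submodule.sub_mem _ hx (hN.mono (Nat.le_succ i) hy), ?_⟩
      intro w hw
      have e1 := congrFun hyx w
      rw [res_mem _ (show w ∈ S₁ᶜ from hw), res_mem _ (show w ∈ S₁ᶜ from hw)] at e1
      rw [Pi.sub_apply, e1, sub_self]
    have hA' : N i ⊓ supS R K S₁ = N (i + 1) ⊓ supS R K S₁ := hA
    rw [← hA'] at hxy
    have := Submodule.add_mem _ hxy.1 hy
    rwa [sub_add_cancel] at this
  · refine ⟨?_, ?_, ?_, ?_⟩
    · intro i j hij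
      exact inf_le_inf_right _ (hN.mono hij)
    · intro i f hf
      exact hf.2
    · intro i a ha f hf
      exact ⟨hN.red i a ha f hf.1, Submodule.smul_mem _ _ hf.2⟩
    · intro g hg i f hf
      refine ⟨hN.stab g hg i f hf.1, ?_⟩
      intro w hw
      rw [act_apply]
      exact hf.2 _ (fun h' => hw ((Stb_inv hS hg w).1 h'))
  · refine ⟨?_, ?_, ?_, ?_⟩
    · intro i j hij
      exact Submodule.map_mono (hN.mono hij)
    · intro i f hf w hw
      obtain ⟨y, hy, rfl⟩ := (Submodule.mem_map).1 hf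
      by_cases h : w ∈ S₁
      · exact res_not _ (fun hc => hc h)
      · rw [res_mem _ (show w ∈ S₁ᶜ from h)]
        exact hN.supp i y hy w (fun hc => hc.elim h hw)
    · intro i a ha f hf
      obtain ⟨y, hy, rfl⟩ := (Submodule.mem_map).1 hf
      rw [← map_smul]
      exact Submodule.mem_map_of_mem (hN.red i a ha y hy)
    · intro g hg i f hf
      obtain ⟨y, hy, rfl⟩ := (Submodule.mem_map).1 hf
      rw [act_res hSc hg]
      exact Submodule.mem_map_of_mem (hN.stab g hg i y hy)

open Classical in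
/-- Pull back along `φ` on `S`. -/
noncomputable def pull (R : Type*) {Ω K : Type*} [Field K] [CommRing R] [Algebra R K]
    (φ : Ω → Ω) (T : Set Ω) : (Ω → K) →ₗ[R] (Ω → K) where
  toFun f := fun w => if w ∈ T then f (φ w) else 0
  map_add' f f' := by
    funext w
    by_cases h : w ∈ T <;> simp [h]
  map_smul' a f := by
    funext w
    by_cases h : w ∈ T <;> simp [h]

theorem pull_mem {φ : Ω → Ω} {T : Set Ω} (f : Ω → K) {w : Ω} (h : w ∈ T) :
    pull R φ T f w = f (φ w) := by
  simp [pull, h]

theorem pull_not {φ : Ω → Ω} {T : Set Ω} (f : Ω → K) {w : Ω} (h : w ∉ T) :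
    pull R φ T f w = 0 := by
  simp [pull, h]

theorem Bd_image (φ : Ω → Ω) (hS : Stb H S)
    (he : ∀ g ∈ H, ∀ w ∈ S, φ (g • w) = g • φ w) (h : Bd R K H S n) :
    Bd R K H (φ '' S) n := by
  intro N hN r
  have hinj : ∀ i, ∀ f ∈ N i, pull R φ S f = 0 → f = 0 := by
    intro i f hf h0
    funext w
    by_cases hw : w ∈ φ '' S
    · obtain ⟨v, hv, rfl⟩ := hw
      have := congrFun h0 v
      rw [pull_mem _ hv] at this
      exact this
    · exact hN.supp i f hf w hw
  refine steps_le_one N (fun i => (N i).map (pull R φ S)) n r ?_ (h _ ?_ r)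
  · intro i hA
    apply le_antisymm (hN.mono (Nat.le_succ i))
    intro x hx
    have hA' : (N i).map (pull R φ S) = (N (i + 1)).map (pull R φ S) := hA
    have hx1 : pull R φ S x ∈ (N i).map (pull R φ S) := by
      rw [hA']
      exact Submodule.mem_map_of_mem hx
    obtain ⟨y, hy, hyx⟩ := (Submodule.mem_map).1 hx1
    have hy' := hN.mono (Nat.le_succ i) hy
    have := hinj (i + 1) (x - y) (Submodule.sub_mem _ hx hy') (by rw [map_sub, hyx, sub_self])
    rw [sub_eq_zero] at this
    rw [this]
    exact hy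
  · refine ⟨?_, ?_, ?_, ?_⟩
    · intro i j hij
      exact Submodule.map_mono (hN.mono hij)
    · intro i f hf w hw
      obtain ⟨y, hy, rfl⟩ := (Submodule.mem_map).1 hf
      exact pull_not _ hw
    · intro i a ha f hf
      obtain ⟨y, hy, rfl⟩ := (Submodule.mem_map).1 hf
      rw [← map_smul]
      exact Submodule.mem_map_of_mem (hN.red i a ha y hy)
    · intro g hg i f hf
      obtain ⟨y, hy, rfl⟩ := (Submodule.mem_map).1 hf
      have : act g (pull R φ S y) = pull R φ S (act g y) := by
        funext w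
        rw [act_apply]
        by_cases hw : w ∈ S
        · have hw' := (Stb_inv hS hg w).2 hw
          rw [pull_mem _ hw', pull_mem _ hw, act_apply]
          have := he g hg _ hw'
          rw [smul_inv_smul] at this
          rw [this, inv_smul_smul]
        · rw [pull_not _ (fun h' => hw ((Stb_inv hS hg w).1 h')), pull_not _ hw]
      rw [this]
      exact Submodule.mem_map_of_mem (hN.stab g hg i y hy)

theorem Bd_index2 {O G : Set E} (s : E) (h : Bd R K O S n)
    (hO : ∀ o ∈ O, o ∈ G ∨ ∃ g ∈ G, o = s * g) (hss : s * s ∈ G)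
    (hconj : ∀ g ∈ G, s⁻¹ * g * s ∈ G) (hsS : ∀ w, s • w ∈ S ↔ w ∈ S) :
    Bd R K G S (2 * n) := by
  intro N hN r
  rw [two_mul]
  have hsS' : ∀ w, s⁻¹ • w ∈ S ↔ w ∈ S := by
    intro w
    have := hsS (s⁻¹ • w)
    rw [smul_inv_smul] at this
    exact this.symm
  have hga : ∀ g ∈ G, ∀ i, ∀ f ∈ N i, act g (act s f) ∈ (N i).map (actL R s) := by
    intro g hg i f hf
    refine (Submodule.mem_map).2 ⟨act (s⁻¹ * g * s) f, hN.stab _ (hconj g hg) i f hf, ?_⟩
    rw [actL_apply, ← act_mul, ← act_mul]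
    congr 1
    group
  refine steps_le_two N (fun i => N i ⊔ (N i).map (actL R s))
    (fun i => N i ⊓ (N i).map (actL R s)) n n r ?_ (h _ ?_ r) (h _ ?_ r)
  · intro i hA hB
    have hA' : N i ⊔ (N i).map (actL R s) = N (i + 1) ⊔ (N (i + 1)).map (actL R s) := hA
    have hB' : N i ⊓ (N i).map (actL R s) = N (i + 1) ⊓ (N (i + 1)).map (actL R s) := hB
    have hm := hN.mono (Nat.le_succ i)
    apply le_antisymm hm
    intro x hx
    have hx1 : x ∈ N i ⊔ (N i).map (actL R s) := by
      rw [hA']
      exact Submodule.mem_sup_left hx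
    obtain ⟨a, ha, b, hb, hab⟩ := (Submodule.mem_sup).1 hx1
    have hb1 : b ∈ N (i + 1) ⊓ (N (i + 1)).map (actL R s) := by
      refine ⟨?_, Submodule.map_mono hm hb⟩
      have : b = x - a := by rw [← hab]; abel
      rw [this]
      exact Submodule.sub_mem _ hx (hm ha)
    rw [← hB'] at hb1
    rw [← hab]
    exact Submodule.add_mem _ ha hb1.1
  · have hstabG : ∀ g ∈ G, ∀ i, ∀ f ∈ N i ⊔ (N i).map (actL R s),
        act g f ∈ N i ⊔ (N i).map (actL R s) := by
      intro g hg i f hf
      obtain ⟨a, ha, b, hb, hab⟩ := (Submodule.mem_sup).1 hf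
      obtain ⟨c, hc, rfl⟩ := (Submodule.mem_map).1 hb
      rw [← hab, act_add]
      exact Submodule.add_mem _ (Submodule.mem_sup_left (hN.stab g hg i a ha))
        (Submodule.mem_sup_right (hga g hg i c hc))
    have hstabs : ∀ i, ∀ f ∈ N i ⊔ (N i).map (actL R s),
        act s f ∈ N i ⊔ (N i).map (actL R s) := by
      intro i f hf
      obtain ⟨a, ha, b, hb, hab⟩ := (Submodule.mem_sup).1 hf
      obtain ⟨c, hc, rfl⟩ := (Submodule.mem_map).1 hb
      rw [← hab, act_add, actL_apply, ← act_mul]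
      exact Submodule.add_mem _ (Submodule.mem_sup_right (Submodule.mem_map_of_mem ha))
        (Submodule.mem_sup_left (hN.stab _ hss i c hc))
    refine ⟨?_, ?_, ?_, ?_⟩
    · intro i j hij
      exact sup_le_sup (hN.mono hij) (Submodule.map_mono (hN.mono hij))
    · intro i f hf w hw
      obtain ⟨a, ha, b, hb, hab⟩ := (Submodule.mem_sup).1 hf
      obtain ⟨c, hc, rfl⟩ := (Submodule.mem_map).1 hb
      rw [← hab, Pi.add_apply, hN.supp i a ha w hw, actL_apply, act_apply,
        hN.supp i c hc _ (fun h' => hw ((hsS' w).1 h')), add_zero]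
    · intro i a ha f hf
      obtain ⟨x, hx, b, hb, hab⟩ := (Submodule.mem_sup).1 hf
      obtain ⟨c, hc, rfl⟩ := (Submodule.mem_map).1 hb
      rw [← hab, smul_add, ← map_smul]
      exact Submodule.add_mem _ (Submodule.mem_sup_left (hN.red i a ha x hx))
        (Submodule.mem_sup_right (Submodule.mem_map_of_mem (hN.red i a ha c hc)))
    · intro o ho i f hf
      rcases hO o ho with h' | ⟨g, hg, rfl⟩
      · exact hstabG o h' i f hf
      · rw [act_mul]
        exact hstabs i _ (hstabG g hg i f hf)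
  · have hstabG : ∀ g ∈ G, ∀ i, ∀ f ∈ N i ⊓ (N i).map (actL R s),
        act g f ∈ N i ⊓ (N i).map (actL R s) := by
      intro g hg i f hf
      refine ⟨hN.stab g hg i f hf.1, ?_⟩
      obtain ⟨c, hc, hcf⟩ := (Submodule.mem_map).1 hf.2
      rw [← hcf, actL_apply]
      exact hga g hg i c hc
    have hstabs : ∀ i, ∀ f ∈ N i ⊓ (N i).map (actL R s),
        act s f ∈ N i ⊓ (N i).map (actL R s) := by
      intro i f hf
      obtain ⟨c, hc, hcf⟩ := (Submodule.mem_map).1 hf.2
      refine ⟨?_, Submodule.mem_map_of_mem hf.1⟩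
      rw [← hcf, actL_apply, ← act_mul]
      exact hN.stab _ hss i c hc
    refine ⟨?_, ?_, ?_, ?_⟩
    · intro i j hij
      exact inf_le_inf (hN.mono hij) (Submodule.map_mono (hN.mono hij))
    · intro i f hf w hw
      exact hN.supp i f hf.1 w hw
    · intro i a ha f hf
      obtain ⟨c, hc, hcf⟩ := (Submodule.mem_map).1 hf.2
      refine ⟨hN.red i a ha f hf.1, ?_⟩
      rw [← hcf, ← map_smul]
      exact Submodule.mem_map_of_mem (hN.red i a ha c hc)
    · intro o ho i f hf
      rcases hO o ho with h' | ⟨g, hg, rfl⟩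
      · exact hstabG o h' i f hf
      · rw [act_mul]
        exact hstabs i _ (hstabG g hg i f hf)

end Bd

end OG
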