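import Mathlib

/-!
Project OG (MP_0bd1d1_al): definitions.
-/

namespace OG

open QuadraticMap

section Abstract

variable {Ω E K : Type*} [Group E] [MulAction E Ω]

/-- The action of a group element on functions. -/
def act (g : E) (f : Ω → K) : Ω → K := fun w => f (g⁻¹ • w)

/-- `S` is stable under all elements of `H`. -/
def Stb (H : Set E) (S : Set Ω) : Prop := ∀ g ∈ H, ∀ w, g • w ∈ S ↔ w ∈ S

/-- Chains of `H`-stable `R`-submodules of functions supported on `S`,
all of whose members have reduction inside the first one. -/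
structure Ch (R : Type*) [CommRing R] [IsLocalRing R] [Field K] [Algebra R K]
    (H : Set E) (S : Set Ω) (N : ℕ → Submodule R (Ω → K)) : Prop where
  mono : Monotone N
  supp : ∀ i, ∀ f ∈ N i, ∀ w, w ∉ S → f w = 0
  red : ∀ i, ∀ a ∈ IsLocalRing.maximalIdeal R, ∀ f ∈ N i, a • f ∈ N 0
  stab : ∀ g ∈ H, ∀ i, ∀ f ∈ N i, act g f ∈ N i

open Classical in
/-- The strict steps before `r`. -/
noncomputable def steps {M : Type*} (N : ℕ → M) (r : ℕ) : Finset ℕ :=
  (Finset.range r).filter (fun i => N i ≠ N (i + 1))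

/-- Every chain has at most `n` strict steps. -/
def Bd (R K : Type*) [CommRing R] [IsLocalRing R] [Field K] [Algebra R K]
    (H : Set E) (S : Set Ω) (n : ℕ) : Prop :=
  ∀ N : ℕ → Submodule R (Ω → K), Ch R H S N → ∀ r, (steps N r).card ≤ n

end Abstract

section Geo

variable {k X : Type*} [Field k] [AddCommGroup X] [Module k X]

/-- Linear automorphisms act on subspaces. -/
instance subAct : MulAction (X ≃ₗ[k] X) (Submodule k X) where
  smul g W := W.map (g : X →ₗ[k] X)
  one_smul W := by
    change W.map ((1 : X ≃ₗ[k] X) : X →ₗ[k] X) = W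
    exact Submodule.map_id W
  mul_smul g h W := by
    change W.map ((g * h : X ≃ₗ[k] X) : X →ₗ[k] X)
      = (W.map (h : X →ₗ[k] X)).map (g : X →ₗ[k] X)
    exact Submodule.map_comp _ _ W

theorem smul_def (g : X ≃ₗ[k] X) (W : Submodule k X) : g • W = W.map (g : X →ₗ[k] X) := rfl

theorem mem_smul (g : X ≃ₗ[k] X) (W : Submodule k X) (x : X) : x ∈ g • W ↔ ∃ w ∈ W, g w = x :=
  Iff.rfl

/-- No nonzero singular vector of `Y` is orthogonal to `Y`. -/
def ND (Q : QuadraticForm k X) (Y : Submodule k X) : Prop :=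
  ∀ x ∈ Y, x ≠ 0 → Q x = 0 → ∃ y ∈ Y, polar Q x y ≠ 0

/-- The isometries moving vectors only inside `Y` and fixing the orthogonal space of `Y`. -/
def Gr (Q : QuadraticForm k X) (Y : Submodule k X) : Set (X ≃ₗ[k] X) :=
  {g | (∀ x, Q (g x) = Q x) ∧ (∀ x, g x - x ∈ Y) ∧
    ∀ x, (∀ y ∈ Y, polar Q x y = 0) → g x = x}

/-- Totally singular `j`-subspaces of `Y`. -/
def Sk (Q : QuadraticForm k X) (Y : Submodule k X) (j : ℕ) : Set (Submodule k X) :=
  {W | W ≤ Y ∧ Module.finrank k W = j ∧ ∀ x ∈ W, Q x = 0}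

/-- `Y` intersected with the orthogonal space of `p` and `p'`. -/
def pp (Q : QuadraticForm k X) (Y : Submodule k X) (p p' : X) : Submodule k X :=
  Y ⊓ (LinearMap.ker (polarBilin Q p) ⊓ LinearMap.ker (polarBilin Q p'))

theorem mem_pp {Q : QuadraticForm k X} {Y : Submodule k X} {p p' x : X} :
    x ∈ pp Q Y p p' ↔ x ∈ Y ∧ polar Q p x = 0 ∧ polar Q p' x = 0 := by
  simp [pp]

/-- Hyperbolic pairs in `Y`. -/
structure HP (Q : QuadraticForm k X) (Y : Submodule k X) (p p' : X) : Prop where
  m1 : p ∈ Y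
  m2 : p' ∈ Y
  q1 : Q p = 0
  q2 : Q p' = 0
  b : polar Q p p' = 1

/-- Eichler map `x + B(p,x) v - B(v,x) p - Q(v) B(p,x) p`. -/
def eichL (Q : QuadraticForm k X) (p v : X) : X →ₗ[k] X :=
  LinearMap.id + (polarBilin Q p).smulRight v - (polarBilin Q v).smulRight p
    - Q v • (polarBilin Q p).smulRight p

theorem eichL_apply (Q : QuadraticForm k X) (p v x : X) :
    eichL Q p v x = x + polar Q p x • v - polar Q v x • p - (Q v * polar Q p x) • p := by
  simp [eichL, mul_smul]

theorem polar_self0 {Q : QuadraticForm k X} {p : X} (hp : Q p = 0) : polar Q p p = 0 := by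
  rw [polar_self, hp, smul_zero]

theorem eichL_comp (Q : QuadraticForm k X) (p v w : X) (hp : Q p = 0) (hv : polar Q p v = 0)
    (hw : polar Q p w = 0) (x : X) :
    eichL Q p v (eichL Q p w x) = eichL Q p (v + w) x := by
  have hpp := polar_self0 hp
  have h1 : polar Q p (eichL Q p w x) = polar Q p x := by
    rw [eichL_apply]
    simp only [polar_sub_right, polar_add_right, polar_smul_right, hw, hpp, smul_eq_mul]
    ring
  have h2 : polar Q v (eichL Q p w x) = polar Q v x + polar Q p x * polar Q v w := by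
    rw [eichL_apply]
    have : polar Q v p = 0 := by rw [polar_comm, hv]
    simp only [polar_sub_right, polar_add_right, polar_smul_right, this, smul_eq_mul]
    ring
  rw [eichL_apply Q p v, h1, h2, eichL_apply, eichL_apply,
    QuadraticMap.map_add Q v w, polar_add_left]
  module

/-- Eichler transformations. -/
def eich (Q : QuadraticForm k X) (p v : X) (hp : Q p = 0) (hv : polar Q p v = 0) :
    X ≃ₗ[k] X :=
  LinearEquiv.ofLinearMap (eichL Q p v) (eichL Q p (-v))
    (by
      ext x
      have hv' : polar Q p (-v) = 0 := by rw [polar_neg_right, hv, neg_zero]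
      simp only [LinearMap.comp_apply, LinearMap.id_apply]
      rw [eichL_comp Q p v (-v) hp hv hv', eichL_apply]
      simp)
    (by
      ext x
      have hv' : polar Q p (-v) = 0 := by rw [polar_neg_right, hv, neg_zero]
      simp only [LinearMap.comp_apply, LinearMap.id_apply]
      rw [eichL_comp Q p (-v) v hp hv' hv, eichL_apply]
      simp)

theorem eich_apply (Q : QuadraticForm k X) (p v : X) (hp : Q p = 0) (hv : polar Q p v = 0)
    (x : X) : eich Q p v hp hv x
      = x + polar Q p x • v - polar Q v x • p - (Q v * polar Q p x) • p :=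
  eichL_apply Q p v x

/-- Conjugate functionals on `Z`: `c * l (g v) = l0 v` for all `v` in `Z`. -/
def Cj (Q : QuadraticForm k X) (Z : Submodule k X) (l l0 : Module.Dual k X) : Prop :=
  ∃ g ∈ Gr Q Z, ∃ c : k, c ≠ 0 ∧ ∀ v ∈ Z, c * l (g v) = l0 v

/-- Functionals that are given on `Z` by a singular vector of `Z` (possibly zero). -/
def T1 (Q : QuadraticForm k X) (Z : Submodule k X) (l : Module.Dual k X) : Prop :=
  ∃ y ∈ Z, Q y = 0 ∧ ∀ v ∈ Z, l v = polar Q y v

end Geo

end OG
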