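import Pool.Agent.Helper60.OG.Defs

/-!
Project OG (MP_0bd1d1_al), module Geo1: isometries.
-/

namespace OG.Geo1

open QuadraticMap Module

variable {k X : Type*} [Field k] [AddCommGroup X] [Module k X]
  {Q : QuadraticForm k X} {Y Z : Submodule k X} {p p' : X} {j : ℕ}

theorem Q_add_smul (x u : X) (a : k) :
    Q (x + a • u) = Q x + a * a * Q u + a * polar Q x u := by
  rw [QuadraticMap.map_add Q, QuadraticMap.map_smul, polar_smul_right]
  simp only [smul_eq_mul]

theorem eich_iso (v x : X) (hp : Q p = 0) (hv : polar Q p v = 0) :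
    Q (eich Q p v hp hv x) = Q x := by
  have h1 : eich Q p v hp hv x = (x + polar Q p x • v) +
      (-(polar Q v x + Q v * polar Q p x)) • p := by
    rw [eich_apply]
    module
  have h2 : polar Q v p = 0 := by rw [polar_comm, hv]
  rw [h1, Q_add_smul, Q_add_smul, polar_add_left, polar_smul_left, h2, hp,
    polar_comm _ x p, polar_comm _ x v]
  simp only [smul_eq_mul]
  ring

theorem eich_mem (v : X) (hp : Q p = 0) (hv : polar Q p v = 0) (h1 : p ∈ Y) (h2 : v ∈ Y) :
    eich Q p v hp hv ∈ Gr Q Y := by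
  refine ⟨fun x => eich_iso v x hp hv, fun x => ?_, fun x hx => ?_⟩
  · have h3 : eich Q p v hp hv x - x = polar Q p x • v - polar Q v x • p -
        (Q v * polar Q p x) • p := by
      rw [eich_apply]
      module
    rw [h3]
    exact Y.sub_mem (Y.sub_mem (Y.smul_mem _ h2) (Y.smul_mem _ h1)) (Y.smul_mem _ h1)
  · have h3 : polar Q p x = 0 := by rw [polar_comm]; exact hx p h1
    have h4 : polar Q v x = 0 := by rw [polar_comm]; exact hx v h2
    rw [eich_apply, h3, h4]
    simp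

theorem eich_add (v w : X) (hp : Q p = 0) (hv : polar Q p v = 0) (hw : polar Q p w = 0)
    (hvw : polar Q p (v + w) = 0) :
    eich Q p (v + w) hp hvw = eich Q p v hp hv * eich Q p w hp hw := by
  ext x
  exact (eichL_comp Q p v w hp hv hw x).symm

theorem eich_conj (g : X ≃ₗ[k] X) (hg : ∀ x, Q (g x) = Q x) (v : X) (hp : Q p = 0)
    (hv : polar Q p v = 0) (hp' : Q (g p) = 0) (hv' : polar Q (g p) (g v) = 0) :
    g * eich Q p v hp hv * g⁻¹ = eich Q (g p) (g v) hp' hv' := by
  have hpol : ∀ a b, polar Q (g a) (g b) = polar Q a b := by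
    intro a b
    simp only [polar, ← map_add, hg]
  ext x
  obtain ⟨z, rfl⟩ := g.surjective x
  have h1 : (g * eich Q p v hp hv * g⁻¹) (g z) = g (eich Q p v hp hv z) := by
    change g (eich Q p v hp hv (g⁻¹ (g z))) = g (eich Q p v hp hv z)
    congr 2
    exact g.symm_apply_apply z
  rw [h1, eich_apply, eich_apply, hpol, hpol, hg]
  simp only [map_sub, map_add, map_smul]

theorem eich_smul (c : k) (v : X) (hp : Q p = 0)
    (hp' : Q (c • p) = 0) (hv' : polar Q (c • p) v = 0) (hv'' : polar Q p (c • v) = 0) :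
    eich Q (c • p) v hp' hv' = eich Q p (c • v) hp hv'' := by
  ext x
  rw [eich_apply, eich_apply, polar_smul_left, polar_smul_left, QuadraticMap.map_smul]
  simp only [smul_eq_mul, smul_smul]
  congr 1
  · congr 1
    · congr 2
      ring
    · congr 1
      ring
  · congr 1
    ring

/-- the reflection as a linear map -/
def reflL (Q : QuadraticForm k X) (u : X) : X →ₗ[k] X :=
  LinearMap.id - (Q u)⁻¹ • (polarBilin Q u).smulRight u

theorem reflL_apply (u x : X) : reflL Q u x = x - (polar Q u x / Q u) • u := by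
  simp only [reflL, LinearMap.sub_apply, LinearMap.id_apply, LinearMap.smul_apply,
    LinearMap.smulRight_apply, polarBilin_apply_apply, smul_smul]
  congr 2
  rw [div_eq_mul_inv, mul_comm]

theorem reflL_invol (u : X) (h : Q u ≠ 0) (x : X) : reflL Q u (reflL Q u x) = x := by
  have h1 : polar Q u u = 2 * Q u := by
    rw [polar_self]
    simp [two_mul, two_smul]
  rw [reflL_apply, reflL_apply, polar_sub_right, polar_smul_right, h1, smul_eq_mul]
  have h2 : (polar Q u x - polar Q u x / Q u * (2 * Q u)) / Q u = -(polar Q u x / Q u) := by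
    field_simp
    ring
  rw [h2]
  module

theorem exists_refl (u : X) (hu : u ∈ Y) (h : Q u ≠ 0) :
    ∃ g ∈ Gr Q Y, ∀ x, g x = x - (polar Q u x / Q u) • u := by
  let g : X ≃ₗ[k] X := LinearEquiv.ofLinearMap (reflL Q u) (reflL Q u)
    (by ext x; exact reflL_invol u h x) (by ext x; exact reflL_invol u h x)
  have hg : ∀ x, g x = x - (polar Q u x / Q u) • u := fun x => reflL_apply u x
  refine ⟨g, ⟨fun x => ?_, fun x => ?_, fun x hx => ?_⟩, hg⟩
  · rw [hg, sub_eq_add_neg, ← neg_smul, Q_add_smul, polar_comm _ x u]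
    field_simp
    ring
  · rw [hg]
    have h1 : x - (polar Q u x / Q u) • u - x = (-(polar Q u x / Q u)) • u := by module
    rw [h1]
    exact Y.smul_mem _ hu
  · have h3 : polar Q u x = 0 := by rw [polar_comm]; exact hx u hu
    rw [hg, h3]
    simp

/-- the torus element as a linear map -/
def torL (Q : QuadraticForm k X) (p p' : X) (c : k) : X →ₗ[k] X :=
  LinearMap.id + (c - 1) • (polarBilin Q p').smulRight p +
    (c⁻¹ - 1) • (polarBilin Q p).smulRight p'

theorem torL_apply (c : k) (x : X) :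
    torL Q p p' c x = x + ((c - 1) * polar Q p' x) • p + ((c⁻¹ - 1) * polar Q p x) • p' := by
  simp only [torL, LinearMap.add_apply, LinearMap.id_apply, LinearMap.smul_apply,
    LinearMap.smulRight_apply, polarBilin_apply_apply, smul_smul]

theorem torL_comp (h : HP Q Y p p') (c d : k) (hcd : c * d = 1) (x : X) :
    torL Q p p' c (torL Q p p' d x) = x := by
  have hc : c ≠ 0 := left_ne_zero_of_mul_eq_one hcd
  have hd : d = c⁻¹ := eq_inv_of_mul_eq_one_right hcd
  subst hd
  have h1 : polar Q p p = 0 := polar_self0 h.q1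
  have h2 : polar Q p' p' = 0 := polar_self0 h.q2
  have h3 : polar Q p p' = 1 := h.b
  have h4 : polar Q p' p = 1 := by rw [polar_comm]; exact h.b
  rw [torL_apply, torL_apply]
  simp only [polar_add_right, polar_smul_right, h1, h2, h3, h4, smul_eq_mul, inv_inv]
  have e1 : (c⁻¹ - 1) * polar Q p' x + (c - 1) * (polar Q p' x +
      (c⁻¹ - 1) * polar Q p' x * 1 + (c - 1) * polar Q p x * 0) = 0 := by
    field_simp
    ring
  have e2 : (c - 1) * polar Q p x + (c⁻¹ - 1) * (polar Q p x +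
      (c⁻¹ - 1) * polar Q p' x * 0 + (c - 1) * polar Q p x * 1) = 0 := by
    field_simp
    ring
  generalize (c - 1) * (polar Q p' x + (c⁻¹ - 1) * polar Q p' x * 1 +
    (c - 1) * polar Q p x * 0) = A at *
  generalize (c⁻¹ - 1) * (polar Q p x + (c⁻¹ - 1) * polar Q p' x * 0 +
    (c - 1) * polar Q p x * 1) = B at *
  have e3 : A = -((c⁻¹ - 1) * polar Q p' x) := by linear_combination e1
  have e4 : B = -((c - 1) * polar Q p x) := by linear_combination e2
  rw [e3, e4]
  module

theorem exists_tor (h : HP Q Y p p') (c : k) (hc : c ≠ 0) :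
    ∃ g ∈ Gr Q Y, g p = c • p ∧ g p' = c⁻¹ • p' ∧
      ∀ x, polar Q p x = 0 → polar Q p' x = 0 → g x = x := by
  let g : X ≃ₗ[k] X := LinearEquiv.ofLinearMap (torL Q p p' c) (torL Q p p' c⁻¹)
    (by ext x; exact torL_comp h c c⁻¹ (mul_inv_cancel₀ hc) x)
    (by ext x; exact torL_comp h c⁻¹ c (inv_mul_cancel₀ hc) x)
  have hg : ∀ x, g x = x + ((c - 1) * polar Q p' x) • p + ((c⁻¹ - 1) * polar Q p x) • p' :=
    fun x => torL_apply c x
  have h1 : polar Q p p = 0 := polar_self0 h.q1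
  have h2 : polar Q p' p' = 0 := polar_self0 h.q2
  have h3 : polar Q p p' = 1 := h.b
  have h4 : polar Q p' p = 1 := by rw [polar_comm]; exact h.b
  have hfix : ∀ x, polar Q p x = 0 → polar Q p' x = 0 → g x = x := by
    intro x hx hx'
    rw [hg, hx, hx']
    simp
  refine ⟨g, ⟨fun x => ?_, fun x => ?_, fun x hx => ?_⟩, ?_, ?_, hfix⟩
  · rw [hg, Q_add_smul, Q_add_smul, polar_add_left, polar_smul_left, h3, h.q1, h.q2,
      polar_comm _ x p, polar_comm _ x p']
    simp only [smul_eq_mul]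
    field_simp
    ring
  · have h5 : g x - x = ((c - 1) * polar Q p' x) • p + ((c⁻¹ - 1) * polar Q p x) • p' := by
      rw [hg]
      module
    rw [h5]
    exact Y.add_mem (Y.smul_mem _ h.m1) (Y.smul_mem _ h.m2)
  · exact hfix x (by rw [polar_comm]; exact hx p h.m1) (by rw [polar_comm]; exact hx p' h.m2)
  · rw [hg, h1, h4]
    module
  · rw [hg, h2, h3]
    module

theorem Gr_one : (1 : X ≃ₗ[k] X) ∈ Gr Q Y := by
  refine ⟨fun x => rfl, fun x => ?_, fun x _ => rfl⟩
  change x - x ∈ Y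
  rw [sub_self]
  exact Y.zero_mem

theorem Gr_mul (g h : X ≃ₗ[k] X) (hg : g ∈ Gr Q Y) (hh : h ∈ Gr Q Y) : g * h ∈ Gr Q Y := by
  refine ⟨fun x => ?_, fun x => ?_, fun x hx => ?_⟩
  · change Q (g (h x)) = Q x
    rw [hg.1, hh.1]
  · change g (h x) - x ∈ Y
    have h1 := Y.add_mem (hg.2.1 (h x)) (hh.2.1 x)
    rwa [sub_add_sub_cancel] at h1
  · change g (h x) = x
    rw [hh.2.2 x hx, hg.2.2 x hx]

theorem Gr_inv (g : X ≃ₗ[k] X) (hg : g ∈ Gr Q Y) : g⁻¹ ∈ Gr Q Y := by
  have hgg : ∀ x, g (g⁻¹ x) = x := fun x => g.apply_symm_apply x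
  refine ⟨fun x => ?_, fun x => ?_, fun x hx => ?_⟩
  · have h1 := hg.1 (g⁻¹ x)
    rw [hgg] at h1
    exact h1.symm
  · have h1 := Y.neg_mem (hg.2.1 (g⁻¹ x))
    rwa [hgg, neg_sub] at h1
  · have h1 := hg.2.2 x hx
    have h2 : g⁻¹ (g x) = x := g.symm_apply_apply x
    rw [h1] at h2
    exact h2

theorem Gr_mono (h : Z ≤ Y) : Gr Q Z ⊆ Gr Q Y := fun _ hg =>
  ⟨hg.1, fun x => h (hg.2.1 x), fun x hx => hg.2.2 x fun y hy => hx y (h hy)⟩

theorem Gr_polar (g : X ≃ₗ[k] X) (hg : g ∈ Gr Q Y) (x y : X) :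
    polar Q (g x) (g y) = polar Q x y := by
  simp only [polar, ← map_add, hg.1]

theorem Gr_mem_iff (g : X ≃ₗ[k] X) (hg : g ∈ Gr Q Y) (x : X) : g x ∈ Y ↔ x ∈ Y := by
  have h1 := hg.2.1 x
  constructor
  · intro h2
    have h3 := Y.sub_mem h2 h1
    rwa [sub_sub_cancel] at h3
  · intro h2
    have h3 := Y.add_mem h1 h2
    rwa [sub_add_cancel] at h3

theorem Sk_stb : Stb (Gr Q Y) (Sk Q Y j) := by
  have key : ∀ g ∈ Gr Q Y, ∀ W ∈ Sk Q Y j, g • W ∈ Sk Q Y j := by
    rintro g hg W ⟨h1, h2, h3⟩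
    refine ⟨?_, ?_, ?_⟩
    · intro x hx
      obtain ⟨w, hw, rfl⟩ := (mem_smul g W x).1 hx
      exact (Gr_mem_iff g hg w).2 (h1 hw)
    · rw [smul_def, ← h2]
      exact LinearEquiv.finrank_map_eq g W
    · intro x hx
      obtain ⟨w, hw, rfl⟩ := (mem_smul g W x).1 hx
      rw [hg.1]
      exact h3 w hw
  intro g hg W
  refine ⟨fun h => ?_, key g hg W⟩
  have h1 := key g⁻¹ (Gr_inv g hg) (g • W) h
  rwa [inv_smul_smul] at h1

end OG.Geo1
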