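import Pool.Agent.Helper60.OG.Defs

/-!
Project OG (MP_0bd1d1_al): module Geo2.
-/

namespace OG.Geo2

open QuadraticMap Module

variable {k X : Type*} [Field k] [AddCommGroup X] [Module k X]
  {Q : QuadraticForm k X} {Y Z : Submodule k X} {p p' : X} {j : ℕ}

theorem HP_symm (h : HP Q Y p p') : HP Q Y p' p :=
  ⟨h.m2, h.m1, h.q2, h.q1, by rw [polar_comm, h.b]⟩

theorem q_sub' (x y : X) : Q (x - y) = Q x + Q y - polar Q x y := by
  rw [sub_eq_add_neg, QuadraticMap.map_add Q, QuadraticMap.map_neg, polar_neg_right]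
  ring

theorem q_smul' (c : k) (x : X) : Q (c • x) = c * c * Q x := by
  rw [QuadraticMap.map_smul, smul_eq_mul]

theorem exists_HP (hY : ND Q Y) (hp : p ∈ Y) (h0 : p ≠ 0) (hq : Q p = 0) :
    ∃ p', HP Q Y p p' := by
  obtain ⟨y, hy, hb⟩ := hY p hp h0 hq
  have hpp := polar_self0 hq
  obtain ⟨z, hz, hbz⟩ : ∃ z ∈ Y, polar Q p z = 1 :=
    ⟨(polar Q p y)⁻¹ • y, Y.smul_mem _ hy, by
      rw [polar_smul_right, smul_eq_mul, inv_mul_cancel₀ hb]⟩
  refine ⟨z - Q z • p, hp, Y.sub_mem hz (Y.smul_mem _ hp), hq, ?_, ?_⟩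
  · rw [q_sub', q_smul', hq, polar_smul_right, polar_comm Q z p, hbz]
    simp
  · rw [polar_sub_right, polar_smul_right, hpp, hbz]
    simp

theorem decomp (h : HP Q Y p p') (x : X) (hx : x ∈ Y) :
    x - polar Q p' x • p - polar Q p x • p' ∈ pp Q Y p p' := by
  have h1 := polar_self0 h.q1
  have h2 := polar_self0 h.q2
  have h3 : polar Q p' p = 1 := by rw [polar_comm, h.b]
  rw [mem_pp]
  refine ⟨Y.sub_mem (Y.sub_mem hx (Y.smul_mem _ h.m1)) (Y.smul_mem _ h.m2), ?_, ?_⟩
  · rw [polar_sub_right, polar_sub_right, polar_smul_right, polar_smul_right, h1, h.b]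
    simp
  · rw [polar_sub_right, polar_sub_right, polar_smul_right, polar_smul_right, h2, h3]
    simp

theorem pp_le : pp Q Y p p' ≤ Y := inf_le_left

theorem pp_comm : pp Q Y p p' = pp Q Y p' p := by
  ext x
  rw [mem_pp, mem_pp]
  tauto

theorem pp_ND (h : HP Q Y p p') (hY : ND Q Y) : ND Q (pp Q Y p p') := by
  intro x hx h0 hq
  obtain ⟨hxY, hpx, hpx'⟩ := mem_pp.1 hx
  obtain ⟨y, hy, hb⟩ := hY x hxY h0 hq
  refine ⟨_, decomp h y hy, ?_⟩
  rw [polar_sub_right, polar_sub_right, polar_smul_right, polar_smul_right, polar_comm Q x p,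
    polar_comm Q x p', hpx, hpx']
  simpa using hb

theorem pp_finrank [FiniteDimensional k X] (h : HP Q Y p p') :
    finrank k (pp Q Y p p') + 2 = finrank k Y := by
  have h1 := polar_self0 h.q1
  have h2 := polar_self0 h.q2
  have h3 : polar Q p' p = 1 := by rw [polar_comm, h.b]
  let F : Y →ₗ[k] k × k := ((polarBilin Q p).prod (polarBilin Q p')).domRestrict Y
  have hF : ∀ y : Y, F y = (polar Q p y, polar Q p' y) := fun y => rfl
  have hsurj : Function.Surjective F := by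
    rintro ⟨a, b⟩
    refine ⟨⟨a • p' + b • p, Y.add_mem (Y.smul_mem _ h.m2) (Y.smul_mem _ h.m1)⟩, ?_⟩
    rw [hF]
    simp only [polar_add_right, polar_smul_right, h1, h2, h3, h.b]
    simp
  have hker : LinearMap.ker F = (pp Q Y p p').comap Y.subtype := by
    ext y
    rw [LinearMap.mem_ker, hF, Submodule.mem_comap, mem_pp]
    simp
  have hk : finrank k (LinearMap.ker F) = finrank k (pp Q Y p p') := by
    rw [hker]
    exact LinearEquiv.finrank_eq (Submodule.comapSubtypeEquivOfLe pp_le)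
  have := LinearMap.finrank_range_add_finrank_ker F
  rw [LinearMap.range_eq_top.2 hsurj, finrank_top, finrank_prod, finrank_self, hk] at this
  omega

theorem Gr_fix1 (g : X ≃ₗ[k] X) (hg : g ∈ Gr Q (pp Q Y p p')) : g p = p :=
  hg.2.2 p fun _ hy => (mem_pp.1 hy).2.1

theorem Gr_fix2 (g : X ≃ₗ[k] X) (hg : g ∈ Gr Q (pp Q Y p p')) : g p' = p' :=
  hg.2.2 p' fun _ hy => (mem_pp.1 hy).2.2

theorem sup_inf_pp (h : HP Q Y p p') (A : Submodule k X) (hA : A ≤ pp Q Y p p') :
    (Submodule.span k {p} ⊔ A) ⊓ pp Q Y p p' = A := by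
  have h3 : polar Q p' p = 1 := by rw [polar_comm, h.b]
  apply le_antisymm
  · rintro x ⟨hx, hx2⟩
    obtain ⟨u, hu, a, ha, rfl⟩ := Submodule.mem_sup.1 hx
    obtain ⟨c, rfl⟩ := Submodule.mem_span_singleton.1 hu
    have h4 := (mem_pp.1 hx2).2.2
    have h5 := (mem_pp.1 (hA ha)).2.2
    rw [polar_add_right, polar_smul_right, h3, h5] at h4
    have hc : c = 0 := by simpa using h4
    rw [hc, zero_smul, zero_add]
    exact ha
  · exact le_inf le_sup_right hA

theorem smul_span_sup (g : X ≃ₗ[k] X) (hg : g p = p) (A : Submodule k X) :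
    g • (Submodule.span k {p} ⊔ A) = Submodule.span k {p} ⊔ g • A := by
  rw [smul_def, smul_def, Submodule.map_sup, Submodule.map_span, Set.image_singleton]
  rw [LinearEquiv.coe_coe, hg]

theorem exists_ne (l : Dual k X) (hl : ¬ T1 Q Z l) : ∃ z ∈ Z, l z ≠ 0 := by
  by_contra hcon
  push Not at hcon
  exact hl ⟨0, Z.zero_mem, QuadraticMap.map_zero Q, fun v hv => by
    rw [hcon v hv, polar_zero_left]⟩

theorem ker_ND (hZ : ND Q Z) (l : Dual k X) (hl : ¬ T1 Q Z l) :
    ND Q (Z ⊓ LinearMap.ker l) := by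
  rintro x ⟨hxZ, hxl⟩ h0 hq
  by_contra hcon
  push Not at hcon
  obtain ⟨z, hz, hlz⟩ := exists_ne l hl
  obtain ⟨y, hy, hb⟩ := hZ x hxZ h0 hq
  have key : ∀ v ∈ Z, polar Q x v = (l v / l z) * polar Q x z := by
    intro v hv
    have h1 : v - (l v / l z) • z ∈ Z ⊓ LinearMap.ker l := by
      refine ⟨Z.sub_mem hv (Z.smul_mem _ hz), ?_⟩
      rw [SetLike.mem_coe, LinearMap.mem_ker, map_sub, map_smul, smul_eq_mul,
        div_mul_cancel₀ _ hlz, sub_self]
    have h2 := hcon _ h1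
    rw [polar_sub_right, polar_smul_right, smul_eq_mul, sub_eq_zero] at h2
    exact h2
  have hc : polar Q x z ≠ 0 := by
    intro h
    apply hb
    rw [key y hy, h, mul_zero]
  apply hl
  refine ⟨(l z / polar Q x z) • x, Z.smul_mem _ hxZ, by rw [q_smul', hq, mul_zero], ?_⟩
  intro v hv
  rw [polar_smul_left, smul_eq_mul, key v hv]
  field_simp

theorem ker_finrank [FiniteDimensional k X] (l : Dual k X) (hl : ¬ T1 Q Z l) :
    finrank k (Z ⊓ LinearMap.ker l : Submodule k X) + 1 = finrank k Z := by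
  obtain ⟨z, hz, hlz⟩ := exists_ne l hl
  let F : Z →ₗ[k] k := l.domRestrict Z
  have hF : ∀ y : Z, F y = l y := fun y => rfl
  have hsurj : Function.Surjective F := by
    intro a
    refine ⟨⟨(a / l z) • z, Z.smul_mem _ hz⟩, ?_⟩
    rw [hF]
    simp only [map_smul, smul_eq_mul]
    exact div_mul_cancel₀ _ hlz
  have hker : LinearMap.ker F = (Z ⊓ LinearMap.ker l).comap Z.subtype := by
    ext y
    rw [LinearMap.mem_ker, hF, Submodule.mem_comap]
    simp
  have hk : finrank k (LinearMap.ker F) = finrank k (Z ⊓ LinearMap.ker l : Submodule k X) := by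
    rw [hker]
    exact LinearEquiv.finrank_eq (Submodule.comapSubtypeEquivOfLe inf_le_left)
  have := LinearMap.finrank_range_add_finrank_ker F
  rw [LinearMap.range_eq_top.2 hsurj, finrank_top, finrank_self, hk] at this
  omega

theorem T1_unique (hZ : ND Q Z) (y y' : X) (hy : y ∈ Z) (hy' : y' ∈ Z) (h : Q y = 0)
    (h' : Q y' = 0) (e : ∀ v ∈ Z, polar Q y v = polar Q y' v) : y = y' := by
  by_contra hne
  have h0 : y - y' ≠ 0 := sub_ne_zero.2 hne
  have h1 : Q (y - y') = 0 := by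
    rw [q_sub', h, h', e y' hy', polar_self0 h']
    simp
  obtain ⟨v, hv, hb⟩ := hZ _ (Z.sub_mem hy hy') h0 h1
  apply hb
  rw [polar_sub_left, e v hv, sub_self]

end OG.Geo2
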