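import Pool.Agent.Helper60.OG.Defs

/-!
Project OG (MP_0bd1d1_al), module Geo3: the three types of totally singular subspaces.
-/

namespace OG.Geo3

open OG QuadraticMap Module

variable {k X : Type*} [Field k] [AddCommGroup X] [Module k X]
  {Q : QuadraticForm k X} {Y Z : Submodule k X} {p p' : X} {j : ℕ}

theorem polar_sing {W : Submodule k X} (hW : ∀ x ∈ W, Q x = 0) {x y : X} (hx : x ∈ W)
    (hy : y ∈ W) : polar Q x y = 0 := by
  unfold polar
  rw [hW _ (W.add_mem hx hy), hW _ hx, hW _ hy]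
  simp

theorem eichL_iso (v x : X) (hp : Q p = 0) (hv : polar Q p v = 0) :
    Q (eichL Q p v x) = Q x := by
  have hpp := polar_self0 hp
  have hvp : polar Q v p = 0 := by rw [polar_comm, hv]
  have e1 : eichL Q p v x =
      (x + polar Q p x • v) + (-(polar Q v x + Q v * polar Q p x)) • p := by
    rw [eichL_apply]; module
  rw [e1, QuadraticMap.map_add Q (x + polar Q p x • v), QuadraticMap.map_add Q x,
    QuadraticMap.map_smul, QuadraticMap.map_smul, hp]
  simp only [polar_add_left, polar_smul_left, polar_smul_right, hvp, smul_eq_mul]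
  rw [polar_comm Q x v, polar_comm Q x p]
  ring

theorem smul_eq_of_stable (S : Submodule k X) (v : X) (hq : Q p = 0)
    (hv : polar Q p v = 0) (h1 : ∀ x ∈ S, eichL Q p v x ∈ S)
    (h2 : ∀ x ∈ S, eichL Q p (-v) x ∈ S) : eich Q p v hq hv • S = S := by
  apply le_antisymm
  · rintro x hx
    obtain ⟨w, hw, rfl⟩ := (mem_smul _ _ _).1 hx
    rw [eich_apply, ← eichL_apply]
    exact h1 w hw
  · intro x hx
    refine (mem_smul _ _ _).2 ⟨eichL Q p (-v) x, h2 x hx, ?_⟩
    rw [eich_apply, ← eichL_apply]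
    have hv' : polar Q p (-v) = 0 := by rw [polar_neg_right, hv, neg_zero]
    rw [eichL_comp Q p v (-v) hq hv hv', eichL_apply]
    simp

theorem pp_symm : pp Q Y p' p = pp Q Y p p' := by
  unfold pp
  rw [inf_comm (LinearMap.ker (polarBilin Q p'))]

theorem HPs (h : HP Q Y p p') : HP Q Y p' p :=
  ⟨h.m2, h.m1, h.q2, h.q1, by rw [polar_comm]; exact h.b⟩

theorem type1 [FiniteDimensional k X] (h : HP Q Y p p') (W : Submodule k X)
    (hW : W ∈ Sk Q Y j) (hp : p ∈ W) :
    ∃ i, j = i + 1 ∧ ∃ A ∈ Sk Q (pp Q Y p p') i, W = Submodule.span k {p} ⊔ A := by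
  obtain ⟨hWY, hWj, hWs⟩ := hW
  have hb' : polar Q p' p = 1 := by rw [polar_comm]; exact h.b
  have hp0 : p ≠ 0 := by
    intro h0
    have := h.b
    rw [h0, polar_zero_left] at this
    exact zero_ne_one this
  have hsup : W = Submodule.span k {p} ⊔ (W ⊓ pp Q Y p p') := by
    apply le_antisymm
    · intro w hw
      rw [Submodule.mem_sup]
      refine ⟨polar Q p' w • p, Submodule.smul_mem _ _ (Submodule.mem_span_singleton_self p),
        w - polar Q p' w • p, ?_, by module⟩
      have hm : w - polar Q p' w • p ∈ W := W.sub_mem hw (W.smul_mem _ hp)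
      refine ⟨hm, mem_pp.2 ⟨hWY hm, polar_sing hWs hp hm, ?_⟩⟩
      rw [polar_sub_right, polar_smul_right, hb', smul_eq_mul, mul_one, sub_self]
    · exact sup_le ((Submodule.span_singleton_le_iff_mem p W).2 hp) inf_le_left
  have hdis : Submodule.span k {p} ⊓ (W ⊓ pp Q Y p p') = ⊥ := by
    rw [eq_bot_iff]
    rintro x ⟨hx1, hx2⟩
    obtain ⟨c, rfl⟩ := Submodule.mem_span_singleton.1 hx1
    have h3 := (mem_pp.1 hx2.2).2.2
    rw [polar_smul_right, hb', smul_eq_mul, mul_one] at h3
    rw [h3, zero_smul]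
    exact Submodule.zero_mem _
  refine ⟨finrank k (W ⊓ pp Q Y p p' : Submodule k X), ?_, W ⊓ pp Q Y p p',
    ⟨inf_le_right, rfl, fun x hx => hWs x hx.1⟩, hsup⟩
  have h1 := Submodule.finrank_sup_add_finrank_inf_eq (Submodule.span k {p}) (W ⊓ pp Q Y p p')
  rw [hdis, finrank_bot, add_zero, ← hsup, finrank_span_singleton hp0, hWj] at h1
  omega

theorem type2 [FiniteDimensional k X] (hY : ND Q Y) (h : HP Q Y p p') (W : Submodule k X)
    (hW : W ∈ Sk Q Y j) (hp : p ∉ W) (hpW : ∀ w ∈ W, polar Q p w = 0) :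
    ∃ v ∈ pp Q Y p p', ∃ A ∈ Sk Q (pp Q Y p p') j,
      ∀ hq hv, W = eich Q p v hq hv • A := by
  obtain ⟨hWY, hWj, hWs⟩ := hW
  have hb' : polar Q p' p = 1 := by rw [polar_comm]; exact h.b
  have hpp : polar Q p p = 0 := polar_self0 h.q1
  have hpp' : polar Q p' p' = 0 := polar_self0 h.q2
  set π : X →ₗ[k] X := LinearMap.id - (polarBilin Q p').smulRight p with hπ
  have hπa : ∀ x, π x = x - polar Q p' x • p := fun x => by simp [hπ]
  have hπZ : ∀ w ∈ W, π w ∈ pp Q Y p p' := by
    intro w hw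
    rw [hπa, mem_pp]
    refine ⟨Y.sub_mem (hWY hw) (Y.smul_mem _ h.m1), ?_, ?_⟩
    · rw [polar_sub_right, polar_smul_right, hpW w hw, hpp]; simp
    · rw [polar_sub_right, polar_smul_right, hb', smul_eq_mul, mul_one, sub_self]
  have hπQ : ∀ w ∈ W, Q (π w) = 0 := by
    intro w hw
    have e : π w = w + (-(polar Q p' w)) • p := by rw [hπa]; module
    rw [e, QuadraticMap.map_add Q w, QuadraticMap.map_smul, h.q1, hWs w hw, polar_smul_right,
      polar_comm Q w p, hpW w hw]
    simp
  have hπ0 : ∀ w ∈ W, π w = 0 → w = 0 := by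
    intro w hw h0
    rw [hπa, sub_eq_zero] at h0
    by_cases hc : polar Q p' w = 0
    · rw [h0, hc, zero_smul]
    · exfalso
      apply hp
      have : p = (polar Q p' w)⁻¹ • w := by
        rw [h0, polar_smul_right, hb', smul_eq_mul, mul_one, smul_smul,
          inv_mul_cancel₀ hc, one_smul]
      rw [this]
      exact W.smul_mem _ hw
  -- the functional
  let T : (pp Q Y p p') →ₗ[k] Dual k W :=
    LinearMap.mk₂ k (fun v w => polar Q (v : X) (π (w : X)))
      (fun v v' w => by rw [Submodule.coe_add, polar_add_left])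
      (fun c v w => by rw [Submodule.coe_smul, polar_smul_left])
      (fun v w w' => by rw [Submodule.coe_add, map_add, polar_add_right])
      (fun c v w => by rw [Submodule.coe_smul, map_smul, polar_smul_right])
  have hT : ∀ v w, T v w = polar Q (v : X) (π (w : X)) := fun v w => rfl
  have hTs : Function.Surjective T := by
    rw [← LinearMap.dualMap_injective_iff, injective_iff_map_eq_zero]
    intro φ hφ
    obtain ⟨w, rfl⟩ := (Module.evalEquiv k W).surjective φ
    have hw0 : w = 0 := by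
      by_contra hne
      have hne' : (w : X) ≠ 0 := fun hh => hne (Subtype.ext hh)
      have hz : π (w : X) ≠ 0 := fun hh => hne' (hπ0 _ w.2 hh)
      obtain ⟨y, hy, hyp⟩ := hY (π (w : X)) (mem_pp.1 (hπZ _ w.2)).1 hz (hπQ _ w.2)
      have hm := mem_pp.1 (hπZ _ w.2)
      have hzv : y - polar Q p' y • p - polar Q p y • p' ∈ pp Q Y p p' := by
        rw [mem_pp]
        refine ⟨Y.sub_mem (Y.sub_mem hy (Y.smul_mem _ h.m1)) (Y.smul_mem _ h.m2), ?_, ?_⟩
        · simp only [polar_sub_right, polar_smul_right, hpp, h.b, smul_eq_mul]; ring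
        · simp only [polar_sub_right, polar_smul_right, hpp', hb', smul_eq_mul]; ring
      have h1 := LinearMap.congr_fun hφ ⟨_, hzv⟩
      have h2 : polar Q (y - polar Q p' y • p - polar Q p y • p') (π (w : X)) = 0 := by
        simpa [hT] using h1
      rw [polar_sub_left, polar_sub_left, polar_smul_left, polar_smul_left, hm.2.1, hm.2.2] at h2
      apply hyp
      rw [polar_comm]
      simpa using h2
    rw [hw0, map_zero]
  obtain ⟨v, hv⟩ := hTs (-((polarBilin Q p').comp W.subtype))
  have hv' : ∀ w ∈ W, polar Q (v : X) (π w) = -polar Q p' w := by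
    intro w hw
    have := LinearMap.congr_fun hv ⟨w, hw⟩
    simpa [hT] using this
  refine ⟨v, v.2, W.map π, ⟨?_, ?_, ?_⟩, ?_⟩
  · rintro _ ⟨w, hw, rfl⟩
    exact hπZ w hw
  · have hinj : Function.Injective (π.domRestrict W) := by
      rw [injective_iff_map_eq_zero]
      intro w hw
      exact Subtype.ext (hπ0 _ w.2 hw)
    have := LinearMap.finrank_range_of_inj hinj
    rw [LinearMap.range_domRestrict] at this
    rw [this, hWj]
  · rintro _ ⟨w, hw, rfl⟩
    exact hπQ w hw
  · intro hq hvv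
    have key : ∀ w ∈ W, eich Q p v hq hvv (π w) = w := by
      intro w hw
      have hm := mem_pp.1 (hπZ _ hw)
      rw [eich_apply, hm.2.1, hv' w hw, hπa]
      module
    apply le_antisymm
    · intro w hw
      exact (mem_smul _ _ _).2 ⟨π w, ⟨w, hw, rfl⟩, key w hw⟩
    · intro x hx
      obtain ⟨_, ⟨w, hw, rfl⟩, rfl⟩ := (mem_smul _ _ _).1 hx
      rw [key w hw]
      exact hw

theorem type3 [FiniteDimensional k X] (h : HP Q Y p p') (W : Submodule k X)
    (hW : W ∈ Sk Q Y j) (w : X) (hw : w ∈ W) (hpw : polar Q p w ≠ 0) :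
    ∃ i, j = i + 1 ∧ ∃ v ∈ pp Q Y p p', ∃ A ∈ Sk Q (pp Q Y p p') i,
      ∀ hq hv, W = eich Q p v hq hv • (Submodule.span k {p'} ⊔ A) := by
  obtain ⟨hWY, hWj, hWs⟩ := hW
  have hb' : polar Q p' p = 1 := by rw [polar_comm]; exact h.b
  have hpp : polar Q p p = 0 := polar_self0 h.q1
  have hpp' : polar Q p' p' = 0 := polar_self0 h.q2
  set w' : X := (polar Q p w)⁻¹ • w with hw'
  have hw'W : w' ∈ W := W.smul_mem _ hw
  have hpw' : polar Q p w' = 1 := by
    rw [hw', polar_smul_right, smul_eq_mul, inv_mul_cancel₀ hpw]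
  set v : X := w' - p' - polar Q p' w' • p with hvdef
  have hvY : v ∈ Y := Y.sub_mem (Y.sub_mem (hWY hw'W) h.m2) (Y.smul_mem _ h.m1)
  have hpv : polar Q p v = 0 := by
    rw [hvdef]
    simp only [polar_sub_right, polar_smul_right, hpp, h.b, hpw', smul_eq_mul]; ring
  have hp'v : polar Q p' v = 0 := by
    rw [hvdef]
    simp only [polar_sub_right, polar_smul_right, hpp', hb', smul_eq_mul]; ring
  have hvZ : v ∈ pp Q Y p p' := mem_pp.2 ⟨hvY, hpv, hp'v⟩
  have hsum : w' = (p' + v) + (polar Q p' w') • p := by rw [hvdef]; module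
  have hQv : polar Q p' w' = - Q v := by
    have h1 : Q w' = 0 := hWs _ hw'W
    generalize polar Q p' w' = c at hsum ⊢
    rw [hsum, QuadraticMap.map_add Q (p' + v), QuadraticMap.map_add Q p', QuadraticMap.map_smul,
      h.q1, h.q2, polar_smul_right, polar_add_left, hb', polar_comm Q v p, hpv, hp'v] at h1
    simp only [smul_eq_mul, mul_zero, mul_one, add_zero, zero_add] at h1
    linear_combination h1
  have hEp' : eichL Q p v p' = w' := by
    rw [eichL_apply, h.b, polar_comm Q v p', hp'v]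
    conv_rhs => rw [hsum, hQv]
    module
  set E := eich Q p v h.q1 hpv with hE
  have hEa : ∀ x, E x = eichL Q p v x := fun x => by rw [hE, eich_apply, ← eichL_apply]
  have hmem : ∀ x, x ∈ E⁻¹ • W ↔ E x ∈ W := by
    intro x
    constructor
    · intro hx
      obtain ⟨u, hu, rfl⟩ := (mem_smul _ _ _).1 hx
      have : E (E⁻¹ u) = u := by
        simp
      rw [this]
      exact hu
    · intro hx
      refine (mem_smul _ _ _).2 ⟨E x, hx, ?_⟩
      simp
  have hW1 : E⁻¹ • W ∈ Sk Q Y j := by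
    refine ⟨?_, ?_, ?_⟩
    · intro x hx
      have hx' := hWY ((hmem x).1 hx)
      rw [hEa, eichL_apply] at hx'
      have e : x = (x + polar Q p x • v - polar Q v x • p - (Q v * polar Q p x) • p)
          - polar Q p x • v + polar Q v x • p + (Q v * polar Q p x) • p := by module
      rw [e]
      exact Y.add_mem (Y.add_mem (Y.sub_mem hx' (Y.smul_mem _ hvY)) (Y.smul_mem _ h.m1))
        (Y.smul_mem _ h.m1)
    · rw [smul_def]
      rw [← hWj]
      exact LinearEquiv.finrank_map_eq (E⁻¹) W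
    · intro x hx
      have := hWs _ ((hmem x).1 hx)
      rwa [hEa, eichL_iso v x h.q1 hpv] at this
  have hp'W1 : p' ∈ E⁻¹ • W := by
    rw [hmem, hEa, hEp']
    exact hw'W
  obtain ⟨i, hi, A, hA, hWA⟩ := type1 (HPs h) _ hW1 hp'W1
  rw [pp_symm] at hA
  refine ⟨i, hi, v, hvZ, A, hA, ?_⟩
  intro hq hvv
  have : eich Q p v hq hvv = E := rfl
  rw [this, ← hWA, smul_inv_smul]

theorem stab1 (A : Submodule k X) (hA : A ≤ pp Q Y p p') (v : X) (hq : Q p = 0)
    (hv : polar Q p v = 0) :
    eich Q p v hq hv • (Submodule.span k {p} ⊔ A) = Submodule.span k {p} ⊔ A := by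
  have key : ∀ u : X, polar Q p u = 0 → ∀ x ∈ Submodule.span k {p} ⊔ A,
      eichL Q p u x ∈ Submodule.span k {p} ⊔ A := by
    intro u hu x hx
    have hpx : polar Q p x = 0 := by
      obtain ⟨y, hy, a, ha, rfl⟩ := Submodule.mem_sup.1 hx
      obtain ⟨c, rfl⟩ := Submodule.mem_span_singleton.1 hy
      rw [polar_add_right, polar_smul_right, polar_self0 hq, (mem_pp.1 (hA ha)).2.1]
      simp
    have hpm : p ∈ Submodule.span k {p} ⊔ A :=
      Submodule.mem_sup_left (Submodule.mem_span_singleton_self p)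
    rw [eichL_apply, hpx]
    simp only [zero_smul, add_zero, mul_zero, sub_zero]
    exact Submodule.sub_mem _ hx (Submodule.smul_mem _ _ hpm)
  exact smul_eq_of_stable _ v hq hv (key v hv)
    (key (-v) (by rw [polar_neg_right, hv, neg_zero]))

theorem stab2 (A : Submodule k X) (hA : A ≤ pp Q Y p p') (v : X) (hq : Q p = 0)
    (hv : polar Q p v = 0) (hvA : ∀ a ∈ A, polar Q v a = 0) :
    eich Q p v hq hv • A = A := by
  have key : ∀ u : X, (∀ a ∈ A, polar Q u a = 0) → ∀ x ∈ A, eichL Q p u x ∈ A := by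
    intro u hu x hx
    rw [eichL_apply, (mem_pp.1 (hA hx)).2.1, hu x hx]
    simpa using hx
  exact smul_eq_of_stable _ v hq hv (key v hvA)
    (key (-v) (fun a ha => by rw [polar_neg_left, hvA a ha, neg_zero]))

theorem stab3 (h : HP Q Y p p') (A : Submodule k X) (hA : A ∈ Sk Q (pp Q Y p p') j) (v : X)
    (hvA : v ∈ A) (hq : Q p = 0) (hv : polar Q p v = 0) :
    eich Q p v hq hv • (Submodule.span k {p'} ⊔ A) = Submodule.span k {p'} ⊔ A := by
  obtain ⟨hAZ, -, hAs⟩ := hA
  have key : ∀ u : X, u ∈ A → ∀ x ∈ Submodule.span k {p'} ⊔ A,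
      eichL Q p u x ∈ Submodule.span k {p'} ⊔ A := by
    intro u hu x hx
    have hux : polar Q u x = 0 := by
      obtain ⟨y, hy, a, ha, rfl⟩ := Submodule.mem_sup.1 hx
      obtain ⟨c, rfl⟩ := Submodule.mem_span_singleton.1 hy
      rw [polar_add_right, polar_smul_right, polar_comm Q u p', (mem_pp.1 (hAZ hu)).2.2,
        polar_sing hAs hu ha]
      simp
    rw [eichL_apply, hux, hAs u hu]
    simp only [zero_smul, sub_zero, zero_mul]
    exact Submodule.add_mem _ hx (Submodule.smul_mem _ _ (Submodule.mem_sup_right hu))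
  exact smul_eq_of_stable _ v hq hv (key v hvA) (key (-v) (A.neg_mem hvA))

theorem dual_of_perp [FiniteDimensional k X] (A : Submodule k X)
    (hA : A ≤ Z) (l : Dual k X)
    (hl : ∀ v ∈ Z, (∀ a ∈ A, polar Q v a = 0) → l v = 0) :
    ∃ a ∈ A, ∀ v ∈ Z, l v = polar Q a v := by
  let T : A →ₗ[k] Dual k Z :=
    LinearMap.mk₂ k (fun a v => polar Q (a : X) (v : X))
      (fun v v' w => by rw [Submodule.coe_add, polar_add_left])
      (fun c v w => by rw [Submodule.coe_smul, polar_smul_left])
      (fun v w w' => by rw [Submodule.coe_add, polar_add_right])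
      (fun c v w => by rw [Submodule.coe_smul, polar_smul_right])
  have hT : ∀ a v, T a v = polar Q (a : X) (v : X) := fun a v => rfl
  have hmem : l.comp Z.subtype ∈ LinearMap.range T := by
    rw [← Subspace.dualCoannihilator_dualAnnihilator_eq (W := LinearMap.range T),
      Submodule.mem_dualAnnihilator]
    intro v hv
    rw [Submodule.mem_dualCoannihilator] at hv
    apply hl _ v.2
    intro a ha
    rw [polar_comm]
    exact hv _ ⟨⟨a, ha⟩, rfl⟩
  obtain ⟨a, ha⟩ := hmem
  refine ⟨a, a.2, fun v hv => ?_⟩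
  have := LinearMap.congr_fun ha ⟨v, hv⟩
  rw [hT] at this
  simpa using this.symm

end OG.Geo3
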