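import Pool.Agent.Helper60.OG.Defs

/-!
Project OG (MP_0bd1d1_al), module WB: three functionals of the second type in characteristic two
with a nonsingular radical vector.
-/

namespace OG.WB

open QuadraticMap Module

variable {k X : Type*} [Field k] [AddCommGroup X] [Module k X]
  {Q : QuadraticForm k X} {Y Z : Submodule k X} {p p' : X} {j : ℕ}

theorem qadd (Q : QuadraticForm k X) (x y : X) : Q (x + y) = Q x + Q y + polar Q x y :=
  QuadraticMap.map_add Q x y

/-! ### the group `Gr` -/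

theorem gr_one : (1 : X ≃ₗ[k] X) ∈ Gr Q Z :=
  ⟨fun _ => rfl, fun x => by
    have : (1 : X ≃ₗ[k] X) x - x = 0 := by simp
    rw [this]; exact Z.zero_mem, fun _ _ => rfl⟩

theorem gr_mem (g : X ≃ₗ[k] X) (hg : g ∈ Gr Q Z) (x : X) (hx : x ∈ Z) : g x ∈ Z := by
  have h := Z.add_mem (hg.2.1 x) hx
  rwa [sub_add_cancel] at h

theorem gr_mul (g h : X ≃ₗ[k] X) (hg : g ∈ Gr Q Z) (hh : h ∈ Gr Q Z) : g * h ∈ Gr Q Z := by
  refine ⟨fun x => ?_, fun x => ?_, fun x hx => ?_⟩
  · change Q (g (h x)) = Q x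
    rw [hg.1, hh.1]
  · change g (h x) - x ∈ Z
    have e : g (h x) - x = (g (h x) - h x) + (h x - x) := by abel
    rw [e]
    exact Z.add_mem (hg.2.1 _) (hh.2.1 _)
  · change g (h x) = x
    rw [hh.2.2 x hx, hg.2.2 x hx]

theorem gr_symm (g : X ≃ₗ[k] X) (hg : g ∈ Gr Q Z) : g.symm ∈ Gr Q Z := by
  refine ⟨fun x => ?_, fun x => ?_, fun x hx => ?_⟩
  · have := hg.1 (g.symm x)
    rw [g.apply_symm_apply] at this
    exact this.symm
  · have h := hg.2.1 (g.symm x)
    rw [g.apply_symm_apply] at h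
    have := Z.neg_mem h
    rwa [neg_sub] at this
  · have h := hg.2.2 x hx
    rw [LinearEquiv.symm_apply_eq]
    exact h.symm

/-! ### conjugacy of functionals -/

theorem cj_refl_on (l l' : Dual k X) (h : ∀ v ∈ Z, l v = l' v) : Cj Q Z l l' :=
  ⟨1, gr_one, 1, one_ne_zero, fun v hv => by rw [one_mul]; exact h v hv⟩

theorem cj_symm (l l' : Dual k X) (h : Cj Q Z l l') : Cj Q Z l' l := by
  obtain ⟨g, hg, c, hc, e⟩ := h
  refine ⟨g.symm, gr_symm g hg, c⁻¹, inv_ne_zero hc, fun v hv => ?_⟩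
  have h1 := e (g.symm v) (gr_mem _ (gr_symm g hg) v hv)
  rw [g.apply_symm_apply] at h1
  rw [← h1, ← mul_assoc, inv_mul_cancel₀ hc, one_mul]

theorem cj_trans (l l' l'' : Dual k X) (h : Cj Q Z l l') (h' : Cj Q Z l' l'') :
    Cj Q Z l l'' := by
  obtain ⟨g, hg, c, hc, e⟩ := h
  obtain ⟨g', hg', c', hc', e'⟩ := h'
  refine ⟨g * g', gr_mul g g' hg hg', c' * c, mul_ne_zero hc' hc, fun v hv => ?_⟩
  rw [← e' v hv, ← e (g' v) (gr_mem g' hg' v hv), mul_assoc]
  rfl

theorem cj_smul (l : Dual k X) (c : k) (hc : c ≠ 0) : Cj Q Z l (c • l) :=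
  ⟨1, gr_one, c, hc, fun v _ => rfl⟩

/-! ### reflections and Eichler transformations -/

theorem eich_gr (v : X) (hp : Q p = 0) (hv : polar Q p v = 0) (h1 : p ∈ Z) (h2 : v ∈ Z) :
    eich Q p v hp hv ∈ Gr Q Z := by
  refine ⟨fun x => ?_, fun x => ?_, fun x hx => ?_⟩
  · rw [eich_apply]
    have e : x + polar Q p x • v - polar Q v x • p - (Q v * polar Q p x) • p =
        x + (polar Q p x • v + (-(polar Q v x + Q v * polar Q p x)) • p) := by module
    rw [e, qadd Q x, qadd Q (polar Q p x • v),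
      QuadraticMap.map_smul, QuadraticMap.map_smul, hp]
    simp only [polar_add_right, polar_smul_right, polar_smul_left, smul_eq_mul]
    have c1 : polar Q x v = polar Q v x := polar_comm _ _ _
    have c2 : polar Q x p = polar Q p x := polar_comm _ _ _
    have c3 : polar Q v p = 0 := by rw [polar_comm]; exact hv
    rw [c1, c2, c3]
    ring
  · rw [eich_apply]
    have e : x + polar Q p x • v - polar Q v x • p - (Q v * polar Q p x) • p - x =
        polar Q p x • v - polar Q v x • p - (Q v * polar Q p x) • p := by abel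
    rw [e]
    exact Z.sub_mem (Z.sub_mem (Z.smul_mem _ h2) (Z.smul_mem _ h1)) (Z.smul_mem _ h1)
  · rw [eich_apply]
    have c1 : polar Q p x = 0 := by rw [polar_comm]; exact hx p h1
    have c2 : polar Q v x = 0 := by rw [polar_comm]; exact hx v h2
    rw [c1, c2]
    simp

theorem refl_gr (u : X) (hu : u ∈ Z) (h : Q u ≠ 0) :
    ∃ g ∈ Gr Q Z, ∀ x, g x = x - (polar Q u x / Q u) • u := by
  let f : X →ₗ[k] X := LinearMap.id - (Q u)⁻¹ • (polarBilin Q u).smulRight u
  have hf : ∀ x, f x = x - (polar Q u x / Q u) • u := by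
    intro x
    simp only [f, LinearMap.sub_apply, LinearMap.id_apply, LinearMap.smul_apply,
      LinearMap.smulRight_apply, polarBilin_apply_apply, smul_smul]
    rw [div_eq_inv_mul]
  have huu : polar Q u u = 2 * Q u := by rw [polar_self]; simp [two_mul, two_nsmul]
  have hinv : Function.Involutive f := by
    intro x
    rw [hf (f x), hf x]
    have h1 : polar Q u (x - (polar Q u x / Q u) • u) = - polar Q u x := by
      rw [polar_sub_right, polar_smul_right, huu, smul_eq_mul]
      field_simp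
      ring
    rw [h1]
    module
  refine ⟨LinearEquiv.ofInvolutive f hinv, ⟨fun x => ?_, fun x => ?_, fun x hx => ?_⟩,
    fun x => ?_⟩
  · change Q (f x) = Q x
    rw [hf]
    have e : x - (polar Q u x / Q u) • u = x + (-(polar Q u x / Q u)) • u := by module
    rw [e, qadd, QuadraticMap.map_smul, polar_smul_right, polar_comm Q x u]
    simp only [smul_eq_mul]
    field_simp
    ring
  · change f x - x ∈ Z
    rw [hf]
    have e : x - (polar Q u x / Q u) • u - x = -((polar Q u x / Q u) • u) := by abel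
    rw [e]
    exact Z.neg_mem (Z.smul_mem _ hu)
  · change f x = x
    rw [hf, polar_comm, hx u hu]
    simp
  · exact hf x

/-! ### the three steps -/

theorem rad_span [Finite k] (hZ : ND Q Z) (r : X) (hr : r ∈ Z)
    (hr' : ∀ y ∈ Z, polar Q r y = 0) (hQr : Q r ≠ 0) (h2 : (2 : k) = 0)
    (hsq : ∀ a : k, ∃ c, a = c * c) (s : X) (hs : s ∈ Z) (hs' : ∀ y ∈ Z, polar Q s y = 0) :
    ∃ c : k, s = c • r := by
  obtain ⟨c, hc⟩ := hsq (Q s / Q r)
  refine ⟨c, ?_⟩
  by_contra hne
  have h0 : s - c • r ≠ 0 := sub_ne_zero.mpr hne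
  have hmem : s - c • r ∈ Z := Z.sub_mem hs (Z.smul_mem _ hr)
  have hq : Q (s - c • r) = 0 := by
    have e : s - c • r = s + (-c) • r := by module
    rw [e, qadd, QuadraticMap.map_smul, polar_smul_right, hs' r hr]
    simp only [smul_eq_mul, mul_zero, add_zero]
    have : -c * -c * Q r = Q s := by
      have : -c * -c = Q s / Q r := by rw [hc]; ring
      rw [this]
      field_simp
    rw [this, ← two_mul, h2, zero_mul]
  obtain ⟨y, hy, hyn⟩ := hZ _ hmem h0 hq
  apply hyn
  rw [polar_sub_left, polar_smul_left, hs' y hy, hr' y hy]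
  simp

theorem fun_of_zero [Finite k] [FiniteDimensional k X] (hZ : ND Q Z) (r : X) (hr : r ∈ Z)
    (hr' : ∀ y ∈ Z, polar Q r y = 0) (hQr : Q r ≠ 0) (h2 : (2 : k) = 0)
    (hsq : ∀ a : k, ∃ c, a = c * c) (m : Dual k X) (hm : m r = 0) :
    ∃ w ∈ Z, ∀ v ∈ Z, m v = polar Q w v := by
  let φ : Z →ₗ[k] Dual k Z :=
    (Submodule.dualRestrict Z).comp ((polarBilin Q).comp Z.subtype)
  have hφ : ∀ w v : Z, φ w v = polar Q (w : X) (v : X) := fun w v => rfl
  have h1 : Submodule.dualRestrict Z m ∈ LinearMap.range φ := by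
    rw [← Subspace.dualCoannihilator_dualAnnihilator_eq (W := LinearMap.range φ)]
    rw [Submodule.mem_dualAnnihilator]
    intro s hs
    rw [Submodule.mem_dualCoannihilator] at hs
    have h3 : ∀ y ∈ Z, polar Q (s : X) y = 0 := by
      intro y hy
      have := hs (φ ⟨y, hy⟩) ⟨⟨y, hy⟩, rfl⟩
      rw [hφ] at this
      rw [polar_comm]
      exact this
    obtain ⟨c, hc⟩ := rad_span hZ r hr hr' hQr h2 hsq (s : X) s.2 h3
    change m (s : X) = 0
    rw [hc, map_smul, hm, smul_zero]
  obtain ⟨w, hw⟩ := h1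
  refine ⟨w, w.2, fun v hv => ?_⟩
  have := congrArg (fun f : Dual k Z => f ⟨v, hv⟩) hw
  simp only [hφ] at this
  exact this.symm

theorem ne_of_not_T1 [Finite k] [FiniteDimensional k X] (hZ : ND Q Z) (r : X) (hr : r ∈ Z)
    (hr' : ∀ y ∈ Z, polar Q r y = 0) (hQr : Q r ≠ 0) (h2 : (2 : k) = 0)
    (hsq : ∀ a : k, ∃ c, a = c * c) (l : Dual k X) (hl : ¬ T1 Q Z l) : l r ≠ 0 := by
  intro h0
  obtain ⟨w, hw, e⟩ := fun_of_zero hZ r hr hr' hQr h2 hsq l h0
  obtain ⟨c, hc⟩ := hsq (Q w / Q r)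
  refine hl ⟨w + c • r, Z.add_mem hw (Z.smul_mem _ hr), ?_, fun v hv => ?_⟩
  · rw [qadd, QuadraticMap.map_smul, polar_smul_right, polar_comm, hr' w hw]
    simp only [smul_eq_mul, mul_zero, add_zero]
    have : c * c * Q r = Q w := by
      rw [← hc]
      field_simp
    rw [this, ← two_mul, h2, zero_mul]
  · rw [polar_add_left, polar_smul_left, hr' v hv, e v hv]
    simp

theorem cj_of_eq (r : X) (hr : r ∈ Z) (hr' : ∀ y ∈ Z, polar Q r y = 0) (h2 : (2 : k) = 0)
    (l l' : Dual k X) (hl : l r = 1) (w : X) (hw : w ∈ Z)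
    (e : ∀ v ∈ Z, l' v = l v + polar Q w v) (c : k) (hc : c * c * Q r + c = Q w + l w) :
    Cj Q Z l l' := by
  have hneg : ∀ a : k, -a = a := fun a => by
    have : a + a = 0 := by rw [← two_mul, h2, zero_mul]
    exact neg_eq_of_add_eq_zero_left this
  set w' : X := w + c • r with hw'
  have hmem : w' ∈ Z := Z.add_mem hw (Z.smul_mem _ hr)
  have hpol : ∀ v ∈ Z, polar Q w' v = polar Q w v := by
    intro v hv
    rw [hw', polar_add_left, polar_smul_left, hr' v hv]
    simp
  have hQ : Q w' = Q w + c * c * Q r := by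
    rw [hw', qadd, QuadraticMap.map_smul, polar_smul_right, polar_comm,
      hr' w hw]
    simp
  have hlw : l w' = Q w' := by
    rw [hQ, hw', map_add, map_smul, hl, smul_eq_mul, mul_one]
    have h3 : l w + c - (Q w + c * c * Q r) = 0 := by
      have h4 : l w + c - (Q w + c * c * Q r) =
          2 * (l w + c) - (c * c * Q r + c + (Q w + l w)) := by ring
      rw [h4, hc, h2]
      have h5 : Q w + l w + (Q w + l w) = 2 * (Q w + l w) := by ring
      rw [h5, h2]
      ring
    exact sub_eq_zero.mp h3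
  by_cases h0 : Q w' = 0
  · by_cases h00 : w' = 0
    · refine cj_refl_on l l' fun v hv => ?_
      rw [e v hv, ← hpol v hv, h00]
      simp
    · have hp' : polar Q w' r = 0 := by rw [polar_comm]; exact hr' w' hmem
      refine ⟨eich Q w' r h0 hp', eich_gr r h0 hp' hmem hr, 1, one_ne_zero, fun v hv => ?_⟩
      rw [eich_apply, one_mul, hr' v hv]
      simp only [map_sub, map_add, map_smul, hl, hlw, h0, smul_eq_mul, mul_one, mul_zero,
        sub_zero, zero_smul, map_zero]
      rw [e v hv, hpol v hv]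
  · obtain ⟨g, hg, hgx⟩ := refl_gr (Q := Q) (Z := Z) w' hmem h0
    refine ⟨g, hg, 1, one_ne_zero, fun v hv => ?_⟩
    rw [hgx, one_mul, map_sub, map_smul, hlw, smul_eq_mul, div_mul_cancel₀ _ h0, e v hv,
      hpol v hv, sub_eq_add_neg, hneg]

/-- the image of `c ↦ c ^ 2 a + c` has index two -/
theorem idx_two [Finite k] (a : k) (ha : a ≠ 0) (h2 : (2 : k) = 0) (x y : k)
    (hx : ¬ ∃ c : k, c * c * a + c = x) (hy : ¬ ∃ c : k, c * c * a + c = y) :
    ∃ c : k, c * c * a + c = x + y := by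
  classical
  let f : k →+ k :=
    { toFun := fun c => c * c * a + c
      map_zero' := by simp
      map_add' := fun c d => by
        have : (c + d) * (c + d) * a + (c + d) =
          (c * c * a + c) + (d * d * a + d) + 2 * (c * d * a) := by ring
        rw [this, h2, zero_mul, add_zero] }
  have hf : ∀ c, f c = c * c * a + c := fun _ => rfl
  have hker : Nat.card f.ker = 2 := by
    have hset : (f.ker : Set k) = {0, a⁻¹} := by
      ext c
      simp only [SetLike.mem_coe, AddMonoidHom.mem_ker, hf, Set.mem_insert_iff,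
        Set.mem_singleton_iff]
      constructor
      · intro h
        have h3 : c * (c * a + 1) = 0 := by rw [← h]; ring
        rcases mul_eq_zero.mp h3 with h4 | h4
        · exact Or.inl h4
        · right
          have h5 : c * a = -1 := eq_neg_of_add_eq_zero_left h4
          have h6 : (-1 : k) = 1 := by
            have : (1 : k) + 1 = 0 := by rw [one_add_one_eq_two, h2]
            exact neg_eq_of_add_eq_zero_left this
          rw [h6] at h5
          exact eq_inv_of_mul_eq_one_left h5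
      · rintro (h | h)
        · rw [h]; simp
        · rw [h]
          have h7 : a⁻¹ * a⁻¹ * a + a⁻¹ = 2 * a⁻¹ := by
            field_simp
            ring
          rw [h7, h2, zero_mul]
    have h8 : Nat.card f.ker = Nat.card ({0, a⁻¹} : Set k) := by
      rw [← hset]
      rfl
    rw [h8, Nat.card_coe_set_eq, Set.ncard_pair]
    exact (inv_ne_zero ha).symm
  have hidx : f.range.index = 2 := by
    have h3 : Nat.card f.range * f.range.index = Nat.card k := AddSubgroup.card_mul_index _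
    have h4 : Nat.card f.ker * f.ker.index = Nat.card k := AddSubgroup.card_mul_index _
    have h5 : f.ker.index = Nat.card f.range := AddSubgroup.index_ker f
    rw [h5, hker, mul_comm] at h4
    have h6 : 0 < Nat.card f.range := Nat.card_pos
    rw [← h3] at h4
    exact (Nat.eq_of_mul_eq_mul_left h6 h4).symm
  have h9 := (AddSubgroup.add_mem_iff_of_index_two hidx (a := x) (b := y)).mpr
    ⟨fun h => absurd h hx, fun h => absurd h hy⟩
  exact h9

theorem three_deg [Finite k] [FiniteDimensional k X] (hZ : ND Q Z) (r : X) (hr : r ∈ Z)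
    (hr0 : r ≠ 0) (hr' : ∀ y ∈ Z, polar Q r y = 0) (l1 l2 l3 : Dual k X)
    (h1 : ¬ T1 Q Z l1) (h2 : ¬ T1 Q Z l2) (h3 : ¬ T1 Q Z l3) :
    Cj Q Z l1 l2 ∨ Cj Q Z l1 l3 ∨ Cj Q Z l2 l3 := by
  classical
  have hQr : Q r ≠ 0 := by
    intro h
    obtain ⟨y, hy, hyn⟩ := hZ r hr hr0 h
    exact hyn (hr' y hy)
  have h20 : (2 : k) = 0 := by
    have h := hr' r hr
    rw [polar_self] at h
    have h' : 2 * Q r = 0 := by simpa [two_mul, two_nsmul] using h
    exact (mul_eq_zero.mp h').resolve_right hQr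
  have hchar : ringChar k = 2 := by
    have hd : ringChar k ∣ 2 := (ringChar.spec k 2).mp (by exact_mod_cast h20)
    exact ((Nat.dvd_prime Nat.prime_two).mp hd).resolve_left (CharP.ringChar_ne_one)
  have hsq : ∀ a : k, ∃ c, a = c * c := fun a => by
    have := FiniteField.isSquare_of_char_two hchar a
    exact this
  -- normalisation
  have n1 := ne_of_not_T1 hZ r hr hr' hQr h20 hsq l1 h1
  have n2 := ne_of_not_T1 hZ r hr hr' hQr h20 hsq l2 h2
  have n3 := ne_of_not_T1 hZ r hr hr' hQr h20 hsq l3 h3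
  set m1 : Dual k X := (l1 r)⁻¹ • l1 with hm1
  set m2 : Dual k X := (l2 r)⁻¹ • l2 with hm2
  set m3 : Dual k X := (l3 r)⁻¹ • l3 with hm3
  have e1 : m1 r = 1 := by
    rw [hm1, LinearMap.smul_apply, smul_eq_mul, inv_mul_cancel₀ n1]
  have e2 : m2 r = 1 := by
    rw [hm2, LinearMap.smul_apply, smul_eq_mul, inv_mul_cancel₀ n2]
  have e3 : m3 r = 1 := by
    rw [hm3, LinearMap.smul_apply, smul_eq_mul, inv_mul_cancel₀ n3]
  have c1 : Cj Q Z l1 m1 := cj_smul l1 _ (inv_ne_zero n1)
  have c2 : Cj Q Z l2 m2 := cj_smul l2 _ (inv_ne_zero n2)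
  have c3 : Cj Q Z l3 m3 := cj_smul l3 _ (inv_ne_zero n3)
  have lift : ∀ (a b a' b' : Dual k X), Cj Q Z a a' → Cj Q Z b b' → Cj Q Z a' b' → Cj Q Z a b :=
    fun a b a' b' ha hb hab => cj_trans _ _ _ ha (cj_trans _ _ _ hab (cj_symm _ _ hb))
  obtain ⟨w, hw, hw'⟩ := fun_of_zero hZ r hr hr' hQr h20 hsq (m2 - m1)
    (by rw [LinearMap.sub_apply, e1, e2, sub_self])
  obtain ⟨u, hu, hu'⟩ := fun_of_zero hZ r hr hr' hQr h20 hsq (m3 - m1)
    (by rw [LinearMap.sub_apply, e1, e3, sub_self])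
  have f2 : ∀ v ∈ Z, m2 v = m1 v + polar Q w v := fun v hv => by
    rw [← hw' v hv, LinearMap.sub_apply]; ring
  have f3 : ∀ v ∈ Z, m3 v = m1 v + polar Q u v := fun v hv => by
    rw [← hu' v hv, LinearMap.sub_apply]; ring
  by_cases a1 : ∃ c : k, c * c * Q r + c = Q w + m1 w
  · obtain ⟨c, hc⟩ := a1
    exact Or.inl (lift _ _ _ _ c1 c2 (cj_of_eq r hr hr' h20 m1 m2 e1 w hw f2 c hc))
  by_cases a2 : ∃ c : k, c * c * Q r + c = Q u + m1 u
  · obtain ⟨c, hc⟩ := a2
    exact Or.inr (Or.inl (lift _ _ _ _ c1 c3 (cj_of_eq r hr hr' h20 m1 m3 e1 u hu f3 c hc)))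
  obtain ⟨c, hc⟩ := idx_two (Q r) hQr h20 _ _ a1 a2
  refine Or.inr (Or.inr (lift _ _ _ _ c2 c3
    (cj_of_eq r hr hr' h20 m2 m3 e2 (w + u) (Z.add_mem hw hu) ?_ c ?_)))
  · intro v hv
    rw [f2 v hv, f3 v hv, polar_add_left]
    have : polar Q w v + polar Q w v = 0 := by rw [← two_mul, h20, zero_mul]
    linear_combination (-1 : k) * this
  · rw [hc, qadd, map_add, f2 w hw, f2 u hu, polar_self]
    have h5 : (2 : ℕ) • Q w = 2 * Q w := by simp [two_mul, two_nsmul]
    rw [h5]
    linear_combination (-(polar Q w u) - Q w) * h20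

end OG.WB
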