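import Pool.Agent.Helper60.OG.WA
import Pool.Agent.Helper60.OG.WB

/-!
Project OG (MP_0bd1d1_al): at most two classes of functionals of the second type.
-/

namespace OG

open QuadraticMap Module

variable {k X : Type*} [Field k] [AddCommGroup X] [Module k X]
  {Q : QuadraticForm k X} {Z : Submodule k X}

theorem three [Finite k] [FiniteDimensional k X] (hZ : ND Q Z) (l1 l2 l3 : Dual k X)
    (h1 : ¬ T1 Q Z l1) (h2 : ¬ T1 Q Z l2) (h3 : ¬ T1 Q Z l3) :
    Cj Q Z l1 l2 ∨ Cj Q Z l1 l3 ∨ Cj Q Z l2 l3 := by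
  by_cases hN : WA.NDeg Q Z
  · exact WA.three_nd hN l1 l2 l3 h1 h2 h3
  · unfold WA.NDeg at hN
    push Not at hN
    obtain ⟨r, hr, hr', hr0⟩ := hN
    exact WB.three_deg hZ r hr hr0 hr' l1 l2 l3 h1 h2 h3

theorem T2_reps [Finite k] [FiniteDimensional k X] (hZ : ND Q Z) :
    ∃ T : Finset (Dual k X), T.card ≤ 2 ∧ (∀ l ∈ T, ¬ T1 Q Z l) ∧
      ∀ l, ¬ T1 Q Z l → ∃ l0 ∈ T, Cj Q Z l l0 := by
  classical
  by_cases h1 : ∃ l1, ¬ T1 Q Z l1
  · obtain ⟨l1, hl1⟩ := h1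
    by_cases h2 : ∃ l2, ¬ T1 Q Z l2 ∧ ¬ Cj Q Z l1 l2
    · obtain ⟨l2, hl2, hc⟩ := h2
      refine ⟨{l1, l2}, Finset.card_le_two, ?_, ?_⟩
      · intro l hl
        rcases Finset.mem_insert.1 hl with rfl | hl
        · exact hl1
        · rw [Finset.mem_singleton.1 hl]
          exact hl2
      · intro l hl
        rcases three hZ l1 l2 l hl1 hl2 hl with h | h | h
        · exact absurd h hc
        · exact ⟨l1, by simp, WA.Cj_symm _ _ h⟩
        · exact ⟨l2, by simp, WA.Cj_symm _ _ h⟩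
    · push Not at h2
      refine ⟨{l1}, by simp, ?_, ?_⟩
      · intro l hl
        rw [Finset.mem_singleton.1 hl]
        exact hl1
      · intro l hl
        exact ⟨l1, by simp, WA.Cj_symm _ _ (h2 l hl)⟩
  · push Not at h1
    exact ⟨∅, by simp, by simp, fun l hl => absurd (h1 l) hl⟩

end OG
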