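import Pool.Agent.Helper60.OG.Stage
import Pool.Agent.Helper60.OG.Geo3
import Pool.Agent.Helper60.OG.WC

/-!
Project OG (MP_0bd1d1_al): the induction.
-/

namespace OG

open QuadraticMap Module
open OG.Geo1 OG.Geo2 OG.Geo3 OG.WA

variable {k X K R : Type*} [Field k] [AddCommGroup X] [Module k X] [FiniteDimensional k X]
  {Q : QuadraticForm k X} {Y Z : Submodule k X} {p p' : X} {i j m : ℕ}
  [Field K] [CommRing R] [IsDomain R] [Algebra R K] [IsFractionRing R K]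
  {ψ : AddChar k R}

section weights

theorem c1 (h : HP Q Y p p') (hψ : ∃ c, ψ c ≠ 1) {l : Dual k X} {f : Submodule k X → K}
    (hf : f ∈ WX K h ψ l) {A : Submodule k X} (hA : A ≤ pp Q Y p p') (h0 : f (jn p A) ≠ 0) :
    ∀ v ∈ pp Q Y p p', l v = 0 := by
  intro v hv
  exact Wt_zero_on hψ hf (jn p A) h0 ⊤ (fun u _ => stab1 A hA u.1 h.q1 _) ⟨v, hv⟩
    Submodule.mem_top

/-- The orthogonal space. -/
def perpS (Q : QuadraticForm k X) (A : Submodule k X) : Submodule k X where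
  carrier := {v | ∀ a ∈ A, polar Q v a = 0}
  zero_mem' := by
    intro a _
    rw [polar_zero_left]
  add_mem' := by
    intro v w hv hw a ha
    rw [polar_add_left, hv a ha, hw a ha, add_zero]
  smul_mem' := by
    intro c v hv a ha
    rw [polar_smul_left, hv a ha, smul_zero]

theorem c2 (h : HP Q Y p p') (hψ : ∃ c, ψ c ≠ 1) {l : Dual k X} {f : Submodule k X → K}
    (hf : f ∈ WX K h ψ l) {A : Submodule k X} (hA : A ≤ pp Q Y p p') (h0 : f A ≠ 0) :
    ∃ a ∈ A, ∀ v ∈ pp Q Y p p', l v = polar Q a v := by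
  apply dual_of_perp A hA
  intro v hv hvA
  exact Wt_zero_on hψ hf A h0 ((perpS Q A).comap (pp Q Y p p').subtype)
    (fun u hu => stab2 A hA u.1 h.q1 _ hu) ⟨v, hv⟩ hvA

theorem c3 (h : HP Q Y p p') (hψ : ∃ c, ψ c ≠ 1) {l : Dual k X} {f : Submodule k X → K}
    (hf : f ∈ WX K h ψ l) {A : Submodule k X} (hA : A ∈ Sk Q (pp Q Y p p') i)
    (h0 : f (jn p' A) ≠ 0) : ∀ a ∈ A, l a = 0 := by
  intro a ha
  exact Wt_zero_on hψ hf (jn p' A) h0 (A.comap (pp Q Y p p').subtype)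
    (fun u hu => stab3 h A hA u.1 hu h.q1 _) ⟨a, hA.1 ha⟩ ha

theorem vanish (hY : ND Q Y) (h : HP Q Y p p') {l : Dual k X} {f : Submodule k X → K}
    (hf : f ∈ WX K h ψ l) (hs : f ∈ supS R K (Sk Q Y j))
    (h1 : ∀ A ∈ Sk Q (pp Q Y p p') (j - 1), f (jn p A) = 0)
    (h2 : ∀ A ∈ Sk Q (pp Q Y p p') j, f A = 0)
    (h3 : ∀ A ∈ Sk Q (pp Q Y p p') (j - 1), f (jn p' A) = 0) : f = 0 := by
  funext W
  by_cases hW : W ∈ Sk Q Y j
  · by_cases hp : p ∈ W
    · obtain ⟨i, rfl, A, hA, rfl⟩ := type1 h W hW hp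
      exact h1 A hA
    · by_cases hperp : ∀ w ∈ W, polar Q p w = 0
      · obtain ⟨v, hv, A, hA, e⟩ := type2 hY h W hW hp hperp
        rw [e h.q1 (mem_pp.1 hv).2.1]
        exact Wt_translate hf ⟨v, hv⟩ A (h2 A hA)
      · push Not at hperp
        obtain ⟨w, hw, hpw⟩ := hperp
        obtain ⟨i, rfl, v, hv, A, hA, e⟩ := type3 h W hW w hw hpw
        rw [e h.q1 (mem_pp.1 hv).2.1]
        exact Wt_translate hf ⟨v, hv⟩ _ (h3 A hA)
  · exact hs W hW

end weights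

section ind

variable [ValuationRing R] [Finite k]

/-- The induction hypothesis. -/
def IH (R K : Type*) {k X : Type*} [Field k] [AddCommGroup X] [Module k X]
    [Field K] [CommRing R] [IsDomain R] [ValuationRing R] [Algebra R K]
    (Q : QuadraticForm k X) (m : ℕ) : Prop :=
  ∀ Y : Submodule k X, finrank k Y < m → ND Q Y → ∀ j,
    Bd R K (Gr Q Y) (Sk Q Y j) (3 ^ finrank k Y)

theorem through (hIH : IH R K Q m) (hY : ND Q Y) (h : HP Q Y p p')
    (hm : finrank k (pp Q Y p p') < m) (j : ℕ) :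
    Bd R K (Gr Q (pp Q Y p p')) {A | A ∈ Sk Q Y j ∧ p ∈ A}
      (3 ^ finrank k (pp Q Y p p')) := by
  refine Bd_mono (Bd_jn (fun g hg => Gr_fix1 g hg) Sk_stb (hIH _ hm (pp_ND h hY) (j - 1)))
    subset_rfl ?_ le_rfl
  rintro A ⟨hA, hp⟩
  obtain ⟨i, rfl, A', hA', rfl⟩ := type1 h A hA hp
  exact ⟨A', hA', rfl⟩

/-- Stabilizer of `y` in `Gr Q Z`. -/
def GrF (Q : QuadraticForm k X) (Z : Submodule k X) (y : X) : Set (X ≃ₗ[k] X) :=
  {g | g ∈ Gr Q Z ∧ g y = y}

theorem GrF_inv {y : X} {g : X ≃ₗ[k] X} (hg : g ∈ GrF Q Z y) : g⁻¹ ∈ GrF Q Z y := by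
  refine ⟨Gr_inv g hg.1, ?_⟩
  have h1 : g⁻¹ (g y) = y := g.symm_apply_apply y
  rwa [hg.2] at h1

theorem Stb_GrF_mem (y : X) (S : Set (Submodule k X)) (hS : Stb (GrF Q Z y) S) :
    Stb (GrF Q Z y) {A | A ∈ S ∧ y ∈ A} := by
  intro g hg w
  have : y ∈ g • w ↔ y ∈ w := by
    rw [mem_smul]
    constructor
    · rintro ⟨x, hx, hxy⟩
      have : x = y := g.injective (by rw [hxy, hg.2])
      rwa [← this]
    · intro hy
      exact ⟨y, hy, hg.2⟩
  change g • w ∈ S ∧ y ∈ g • w ↔ w ∈ S ∧ y ∈ w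
  rw [this, hS g hg w]

theorem Stb_GrF_perp (y : X) (S : Set (Submodule k X)) (hS : Stb (GrF Q Z y) S) :
    Stb (GrF Q Z y) {A | A ∈ S ∧ ∀ a ∈ A, polar Q y a = 0} := by
  intro g hg w
  have : (∀ a ∈ g • w, polar Q y a = 0) ↔ ∀ a ∈ w, polar Q y a = 0 := by
    constructor
    · intro h a ha
      have h1 := h (g a) ((mem_smul g w _).2 ⟨a, ha, rfl⟩)
      have h2 := Gr_polar g hg.1 y a
      rw [hg.2] at h2
      rw [← h2]
      exact h1
    · rintro h a ha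
      obtain ⟨x, hx, rfl⟩ := (mem_smul g w _).1 ha
      have h2 := Gr_polar g hg.1 y x
      rw [hg.2] at h2
      rw [h2]
      exact h x hx
  change g • w ∈ S ∧ (∀ a ∈ g • w, polar Q y a = 0) ↔ w ∈ S ∧ ∀ a ∈ w, polar Q y a = 0
  rw [this, hS g hg w]

theorem GrF_polar {y : X} {g : X ≃ₗ[k] X} (hg : g ∈ GrF Q Z y) (v : X) :
    polar Q y (g v) = polar Q y v := by
  have := Gr_polar g hg.1 y v
  rwa [hg.2] at this

/-- Second stage: the sets orthogonal to `y` and not containing `y`. -/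
theorem stageB (hIH : IH R K Q m) (hψ : ∃ c, ψ c ≠ 1) (hq : IsUnit ((Nat.card k : ℕ) : R))
    (hZ : ND Q Z) {y y' : X} (h : HP Q Z y y') (hm : finrank k Z < m) (j : ℕ) :
    Bd R K (GrF Q Z y) {A | A ∈ Sk Q Z j ∧ y ∉ A ∧ ∀ a ∈ A, polar Q y a = 0}
      (3 ^ (finrank k Z - 2) + 3 ^ (finrank k Z - 4)) := by
  classical
  set Z' := pp Q Z y y' with hZ'
  have hfr : finrank k Z' + 2 = finrank k Z := pp_finrank h
  have hZ'nd : ND Q Z' := pp_ND h hZ
  have hle : Z' ≤ Z := pp_le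
  have hsub : Gr Q Z' ⊆ GrF Q Z y := fun g hg => ⟨Gr_mono hle hg, Gr_fix1 g hg⟩
  have heH : ∀ v, eV h v ∈ GrF Q Z y := by
    intro v
    refine ⟨eich_mem v.1 h.q1 _ h.m1 (hle v.2), ?_⟩
    change eich Q y v.1 _ _ y = y
    rw [eich_apply, polar_self0 h.q1]
    have : polar Q v.1 y = 0 := by rw [polar_comm]; exact (mem_pp.1 v.2).2.1
    rw [this]
    simp
  have van : ∀ (l : Dual k X) (f : Submodule k X → K), f ∈ WX K h ψ l →
      f ∈ supS R K {A | A ∈ Sk Q Z j ∧ y ∉ A ∧ ∀ a ∈ A, polar Q y a = 0} →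
      (∀ A ∈ Sk Q Z' j, f A = 0) → f = 0 := by
    intro l f hf hs h2
    funext W
    by_cases hW : W ∈ {A | A ∈ Sk Q Z j ∧ y ∉ A ∧ ∀ a ∈ A, polar Q y a = 0}
    · obtain ⟨v, hv, A, hA, e⟩ := type2 hZ h W hW.1 hW.2.1 hW.2.2
      rw [e h.q1 (mem_pp.1 hv).2.1]
      exact Wt_translate hf ⟨v, hv⟩ A (h2 A hA)
    · exact hs W hW
  have hB0 : Bd R K (Gr Q Z') (Sk Q Z' j) (3 ^ (finrank k Z - 2)) := by
    have := hIH Z' (by omega) hZ'nd j
    rwa [show finrank k Z - 2 = finrank k Z' by omega]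
  have h10 : ∃ (H₀ : Set (X ≃ₗ[k] X)) (B₀ : Set (Submodule k X)),
      Bd R K H₀ B₀ (3 ^ (finrank k Z - 2)) ∧ H₀ ⊆ GrF Q Z y ∧ Stb H₀ B₀ ∧
      (∀ g ∈ H₀, g⁻¹ ∈ Gr Q (pp Q Z y y') ∧
        ∀ v ∈ pp Q Z y y', (0 : Dual k X) (g⁻¹ v) = (0 : Dual k X) v) ∧
      (∀ f : Submodule k X → K, f ∈ WX K h ψ 0 →
        f ∈ supS R K {A | A ∈ Sk Q Z j ∧ y ∉ A ∧ ∀ a ∈ A, polar Q y a = 0} →
        (∀ w ∈ B₀, f w = 0) → f = 0) :=
    ⟨Gr Q Z', Sk Q Z' j, hB0, hsub, Sk_stb, fun g hg => ⟨Gr_inv g hg, fun v _ => rfl⟩,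
      fun f hf hs h2 => van 0 f hf hs h2⟩
  by_cases hex : ∃ z ∈ Z', z ≠ 0 ∧ Q z = 0
  · obtain ⟨z, hz, hz0, hzq⟩ := hex
    obtain ⟨z', hzz⟩ := exists_HP hZ'nd hz hz0 hzq
    have hfr2 : finrank k (pp Q Z' z z') + 2 = finrank k Z' := pp_finrank hzz
    have hz2 : pp Q Z' z z' ≤ Z' := pp_le
    set lz : Dual k X := polarBilin Q z with hlz
    have hlz' : ∀ v, lz v = polar Q z v := fun v => rfl
    have main := cliff3 (K := K) (R := R) (ψ := ψ) h hψ hq
      (S := {A | A ∈ Sk Q Z j ∧ y ∉ A ∧ ∀ a ∈ A, polar Q y a = 0}) heH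
      (fun i => match i with
        | 0 => {0}
        | 1 => {lz}
        | 2 => ∅)
      (fun i => match i with
        | 0 => 3 ^ (finrank k Z - 2)
        | 1 => 3 ^ (finrank k Z - 4)
        | 2 => 0) ?_ ?_
    · rw [Fin.sum_univ_three] at main
      simpa using main
    · intro i
      match i with
      | 0 =>
        intro l hl
        have hl' : l = 0 := by simpa using hl
        rw [hl']
        exact h10
      | 1 =>
        intro l hl
        have hl' : l = lz := by simpa using hl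
        rw [hl']
        refine ⟨Gr Q (pp Q Z' z z'), {A | A ∈ Sk Q Z' j ∧ z ∈ A}, ?_, ?_, ?_, ?_, ?_⟩
        · have := through (R := R) (K := K) hIH hZ'nd hzz (by omega) j
          have e : finrank k Z - 4 = finrank k (pp Q Z' z z') := by omega
          change Bd R K (Gr Q (pp Q Z' z z')) {A | A ∈ Sk Q Z' j ∧ z ∈ A}
            (3 ^ (finrank k Z - 4))
          rw [e]
          exact this
        · exact fun g hg => hsub (Gr_mono hz2 hg)
        · have h3 : Stb (GrF Q Z' z) {A | A ∈ Sk Q Z' j ∧ z ∈ A} :=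
            Stb_GrF_mem z _ (Stb_mono Sk_stb (fun g hg => hg.1))
          exact Stb_mono h3 (fun g hg => ⟨Gr_mono hz2 hg, Gr_fix1 g hg⟩)
        · intro g hg
          have hgi := Gr_inv g hg
          refine ⟨Gr_mono hz2 hgi, ?_⟩
          intro v _
          rw [hlz', hlz']
          exact GrF_polar (Z := Z') (y := z) ⟨Gr_mono hz2 hgi, Gr_fix1 _ hgi⟩ v
        · intro f hf hs h2
          refine van lz f hf hs ?_
          intro A hA
          by_contra h0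
          obtain ⟨a, ha, hav⟩ := c2 h hψ hf hA.1 h0
          have haz : a = z := by
            refine T1_unique hZ'nd a z (hA.1 ha) hz (hA.2.2 a ha) hzq ?_
            intro v hv
            rw [← hav v hv, hlz']
          exact h0 (h2 A ⟨hA, haz ▸ ha⟩)
      | 2 =>
        intro l hl
        simp at hl
    · intro l
      by_cases hl0 : ∀ v ∈ Z', l v = 0
      · right
        refine ⟨0, 0, by simp, 1, hsub Gr_one, by rw [inv_one]; exact hsub Gr_one, ?_⟩
        intro f hf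
        rw [inv_one, act_one]
        rw [WX_congr h l 0 (fun v hv => by rw [hl0 v hv]; rfl)] at hf
        exact hf
      · by_cases hT : T1 Q Z' l
        · right
          obtain ⟨x, hx, hxq, hxl⟩ := hT
          have hx0 : x ≠ 0 := by
            rintro rfl
            apply hl0
            intro v hv
            rw [hxl v hv, polar_zero_left]
          obtain ⟨g, hg, hgz⟩ := T1_trans hZ'nd z x hz hx hzq hxq hz0 hx0
          refine ⟨1, lz, by simp, g, hsub hg, hsub (Gr_inv g hg), ?_⟩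
          intro f hf
          refine WX_Gr h g hg l lz ?_ hf
          intro v hv
          rw [hxl _ ((Gr_mem_iff g hg v).2 hv), ← hgz, Gr_polar g hg, hlz']
        · left
          intro f hf hs
          refine van l f hf hs ?_
          intro A hA
          by_contra h0
          obtain ⟨a, ha, hav⟩ := c2 h hψ hf hA.1 h0
          exact hT ⟨a, hA.1 ha, hA.2.2 a ha, hav⟩
  · push Not at hex
    have main := cliff3 (K := K) (R := R) (ψ := ψ) h hψ hq
      (S := {A | A ∈ Sk Q Z j ∧ y ∉ A ∧ ∀ a ∈ A, polar Q y a = 0}) heH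
      (fun i => match i with
        | 0 => {0}
        | 1 => ∅
        | 2 => ∅)
      (fun i => match i with
        | 0 => 3 ^ (finrank k Z - 2)
        | 1 => 0
        | 2 => 0) ?_ ?_
    · rw [Fin.sum_univ_three] at main
      refine Bd_mono main subset_rfl subset_rfl ?_
      simp
    · intro i
      match i with
      | 0 =>
        intro l hl
        have hl' : l = 0 := by simpa using hl
        rw [hl']
        exact h10
      | 1 =>
        intro l hl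
        simp at hl
      | 2 =>
        intro l hl
        simp at hl
    · intro l
      by_cases hl0 : ∀ v ∈ Z', l v = 0
      · right
        refine ⟨0, 0, by simp, 1, hsub Gr_one, by rw [inv_one]; exact hsub Gr_one, ?_⟩
        intro f hf
        rw [inv_one, act_one]
        rw [WX_congr h l 0 (fun v hv => by rw [hl0 v hv]; rfl)] at hf
        exact hf
      · left
        intro f hf hs
        refine van l f hf hs ?_
        intro A hA
        by_contra h0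
        obtain ⟨a, ha, hav⟩ := c2 h hψ hf hA.1 h0
        apply hl0
        intro v hv
        have ha0 : a = 0 := by
          by_contra hne
          exact hex a (hA.1 ha) hne (hA.2.2 a ha)
        rw [hav v hv, ha0, polar_zero_left]

/-- First stage for a singular weight `y`. -/
theorem stageA (hIH : IH R K Q m) (hψ : ∃ c, ψ c ≠ 1) (hq : IsUnit ((Nat.card k : ℕ) : R))
    (hZ : ND Q Z) {y : X} (hy : y ∈ Z) (hy0 : y ≠ 0) (hyq : Q y = 0)
    (hm : finrank k Z < m) (j : ℕ) (p' : X) (hp' : ∀ g ∈ Gr Q Z, g p' = p') :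
    Bd R K (GrF Q Z y) ({A | A ∈ Sk Q Z j ∧ y ∈ A} ∪
      jn p' '' {A | A ∈ Sk Q Z (j - 1) ∧ ∀ a ∈ A, polar Q y a = 0})
      (3 * 3 ^ (finrank k Z - 2) + 3 ^ (finrank k Z - 4)) := by
  obtain ⟨y', h⟩ := exists_HP hZ hy hy0 hyq
  have hfr : finrank k (pp Q Z y y') + 2 = finrank k Z := pp_finrank h
  have hsub : Gr Q (pp Q Z y y') ⊆ GrF Q Z y := fun g hg => ⟨Gr_mono pp_le hg, Gr_fix1 g hg⟩
  have hthr : ∀ i, Bd R K (GrF Q Z y) {A | A ∈ Sk Q Z i ∧ y ∈ A} (3 ^ (finrank k Z - 2)) := by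
    intro i
    have := through (R := R) (K := K) hIH hZ h (by omega) i
    rw [show finrank k Z - 2 = finrank k (pp Q Z y y') by omega]
    exact Bd_mono this hsub subset_rfl le_rfl
  have hst : ∀ i, Stb (GrF Q Z y) (Sk Q Z i) := fun i => Stb_mono Sk_stb (fun g hg => hg.1)
  have hB : Bd R K (GrF Q Z y) {A | A ∈ Sk Q Z (j - 1) ∧ ∀ a ∈ A, polar Q y a = 0}
      (3 ^ (finrank k Z - 2) + (3 ^ (finrank k Z - 2) + 3 ^ (finrank k Z - 4))) := by
    refine Bd_mono (Bd_union (Stb_GrF_mem y _ (hst (j - 1))) (hthr (j - 1))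
      (stageB hIH hψ hq hZ h hm (j - 1))) subset_rfl ?_ le_rfl
    rintro A ⟨hA, hAy⟩
    by_cases hyA : y ∈ A
    · exact Or.inl ⟨hA, hyA⟩
    · exact Or.inr ⟨hA, hyA, hAy⟩
  refine Bd_mono (Bd_union (Stb_GrF_mem y _ (hst j)) (hthr j)
    (Bd_jn (fun g hg => hp' g hg.1) (Stb_GrF_perp y _ (hst (j - 1))) hB)) subset_rfl
    subset_rfl ?_
  omega

theorem arith (m : ℕ) (hm : 2 ≤ m) :
    3 * 3 ^ (m - 2) + (3 * 3 ^ (m - 4) + 3 ^ (m - 6)) + 2 * 3 ^ (m - 3) ≤ 3 ^ m := by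
  rcases Nat.lt_or_ge m 6 with h | h
  · interval_cases m <;> norm_num
  · obtain ⟨n, rfl⟩ := Nat.exists_eq_add_of_le h
    rw [show 6 + n - 2 = n + 4 by omega, show 6 + n - 4 = n + 2 by omega,
      show 6 + n - 6 = n by omega, show 6 + n - 3 = n + 3 by omega,
      show 6 + n = n + 6 by omega]
    simp only [pow_add]
    omega

theorem step (hIH : IH R K Q m) (hψ : ∃ c, ψ c ≠ 1) (hq : IsUnit ((Nat.card k : ℕ) : R))
    (hY : ND Q Y) (hm : finrank k Y = m) (h : HP Q Y p p') (j : ℕ) :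
    Bd R K (Gr Q Y) (Sk Q Y j) (3 ^ m) := by
  classical
  set Z := pp Q Y p p' with hZ'
  have hfr : finrank k Z + 2 = m := by rw [← hm]; exact pp_finrank h
  have hZ : ND Q Z := pp_ND h hY
  have hle : Z ≤ Y := pp_le
  have hsub : Gr Q Z ⊆ Gr Q Y := Gr_mono hle
  have heH : ∀ v, eV h v ∈ Gr Q Y := fun v => eich_mem v.1 h.q1 _ h.m1 (hle v.2)
  have hst1 : Stb (Gr Q Z) (jn p '' Sk Q Z (j - 1)) :=
    Stb_jn (fun g hg => Gr_fix1 g hg) Sk_stb
  have hst3 : Stb (Gr Q Z) (jn p' '' Sk Q Z (j - 1)) :=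
    Stb_jn (fun g hg => Gr_fix2 g hg) Sk_stb
  have h10 : ∃ (H₀ : Set (X ≃ₗ[k] X)) (B₀ : Set (Submodule k X)),
      Bd R K H₀ B₀ (3 * 3 ^ (m - 2)) ∧ H₀ ⊆ Gr Q Y ∧ Stb H₀ B₀ ∧
      (∀ g ∈ H₀, g⁻¹ ∈ Gr Q (pp Q Y p p') ∧
        ∀ v ∈ pp Q Y p p', (0 : Dual k X) (g⁻¹ v) = (0 : Dual k X) v) ∧
      (∀ f : Submodule k X → K, f ∈ WX K h ψ 0 →
        f ∈ supS R K (Sk Q Y j) → (∀ w ∈ B₀, f w = 0) → f = 0) := by
    refine ⟨Gr Q Z, (jn p '' Sk Q Z (j - 1) ∪ Sk Q Z j) ∪ jn p' '' Sk Q Z (j - 1), ?_, hsub,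
      Stb_union (Stb_union hst1 Sk_stb) hst3, fun g hg => ⟨Gr_inv g hg, fun v _ => rfl⟩, ?_⟩
    · have e : 3 * 3 ^ (m - 2) = 3 ^ finrank k Z + 3 ^ finrank k Z + 3 ^ finrank k Z := by
        rw [show m - 2 = finrank k Z by omega]
        ring
      rw [e]
      have hI := hIH Z (by omega) hZ
      exact Bd_union (Stb_union hst1 Sk_stb)
        (Bd_union hst1 (Bd_jn (fun g hg => Gr_fix1 g hg) Sk_stb (hI (j - 1))) (hI j))
        (Bd_jn (fun g hg => Gr_fix2 g hg) Sk_stb (hI (j - 1)))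
    · intro f hf hs h0
      exact vanish hY h hf hs (fun A hA => h0 _ (Or.inl (Or.inl ⟨A, hA, rfl⟩)))
        (fun A hA => h0 _ (Or.inl (Or.inr hA))) (fun A hA => h0 _ (Or.inr ⟨A, hA, rfl⟩))
  have h11 : ∀ y ∈ Z, y ≠ 0 → Q y = 0 → ∃ (H₀ : Set (X ≃ₗ[k] X)) (B₀ : Set (Submodule k X)),
      Bd R K H₀ B₀ (3 * 3 ^ (m - 4) + 3 ^ (m - 6)) ∧ H₀ ⊆ Gr Q Y ∧ Stb H₀ B₀ ∧
      (∀ g ∈ H₀, g⁻¹ ∈ Gr Q (pp Q Y p p') ∧
        ∀ v ∈ pp Q Y p p', (polarBilin Q y) (g⁻¹ v) = (polarBilin Q y) v) ∧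
      (∀ f : Submodule k X → K, f ∈ WX K h ψ (polarBilin Q y) →
        f ∈ supS R K (Sk Q Y j) → (∀ w ∈ B₀, f w = 0) → f = 0) := by
    intro y hy hy0 hyq
    have hst : ∀ i, Stb (GrF Q Z y) (Sk Q Z i) := fun i => Stb_mono Sk_stb (fun g hg => hg.1)
    refine ⟨GrF Q Z y, {A | A ∈ Sk Q Z j ∧ y ∈ A} ∪
        jn p' '' {A | A ∈ Sk Q Z (j - 1) ∧ ∀ a ∈ A, polar Q y a = 0},
      ?_, fun g hg => hsub hg.1, ?_, ?_, ?_⟩
    · have := stageA (R := R) (K := K) hIH hψ hq hZ hy hy0 hyq (by omega) j p'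
        (fun g hg => Gr_fix2 g hg)
      rw [show finrank k Z - 2 = m - 4 by omega, show finrank k Z - 4 = m - 6 by omega] at this
      exact this
    · exact Stb_union (Stb_GrF_mem y _ (hst j))
        (Stb_jn (fun g hg => Gr_fix2 g hg.1) (Stb_GrF_perp y _ (hst (j - 1))))
    · intro g hg
      have hgi := GrF_inv hg
      exact ⟨hgi.1, fun v _ => GrF_polar hgi v⟩
    · intro f hf hs h0
      refine vanish hY h hf hs ?_ ?_ ?_
      · intro A hA
        by_contra hne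
        have hz := c1 h hψ hf hA.1 hne
        obtain ⟨z, hz1, hz2⟩ := hZ y hy hy0 hyq
        exact hz2 (hz z hz1)
      · intro A hA
        by_contra hne
        obtain ⟨a, ha, hav⟩ := c2 h hψ hf hA.1 hne
        have hay : a = y := by
          refine T1_unique hZ a y (hA.1 ha) hy (hA.2.2 a ha) hyq ?_
          intro v hv
          exact (hav v hv).symm
        exact hne (h0 A (Or.inl ⟨hA, hay ▸ ha⟩))
      · intro A hA
        by_contra hne
        have hz := c3 h hψ hf hA hne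
        exact hne (h0 _ (Or.inr ⟨A, ⟨hA, fun a ha => hz a ha⟩, rfl⟩))
  have h12 : ∀ l : Dual k X, ¬ T1 Q Z l → ∃ (H₀ : Set (X ≃ₗ[k] X)) (B₀ : Set (Submodule k X)),
      Bd R K H₀ B₀ (3 ^ (m - 3)) ∧ H₀ ⊆ Gr Q Y ∧ Stb H₀ B₀ ∧
      (∀ g ∈ H₀, g⁻¹ ∈ Gr Q (pp Q Y p p') ∧ ∀ v ∈ pp Q Y p p', l (g⁻¹ v) = l v) ∧
      (∀ f : Submodule k X → K, f ∈ WX K h ψ l →
        f ∈ supS R K (Sk Q Y j) → (∀ w ∈ B₀, f w = 0) → f = 0) := by
    intro l hl
    have hkle : Z ⊓ LinearMap.ker l ≤ Z := inf_le_left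
    have hkf : finrank k (Z ⊓ LinearMap.ker l : Submodule k X) + 1 = finrank k Z :=
      ker_finrank l hl
    have hfix : ∀ g ∈ Gr Q (Z ⊓ LinearMap.ker l), g p' = p' :=
      fun g hg => Gr_fix2 g (Gr_mono hkle hg)
    refine ⟨Gr Q (Z ⊓ LinearMap.ker l), jn p' '' Sk Q (Z ⊓ LinearMap.ker l) (j - 1), ?_,
      fun g hg => hsub (Gr_mono hkle hg), Stb_jn hfix Sk_stb, ?_, ?_⟩
    · rw [show m - 3 = finrank k (Z ⊓ LinearMap.ker l : Submodule k X) by omega]
      exact Bd_jn hfix Sk_stb (hIH _ (by omega) (ker_ND hZ l hl) (j - 1))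
    · intro g hg
      have hgi := Gr_inv g hg
      refine ⟨Gr_mono hkle hgi, ?_⟩
      intro v _
      have h1 := (hgi.2.1 v).2
      rw [SetLike.mem_coe, LinearMap.mem_ker, map_sub, sub_eq_zero] at h1
      exact h1
    · intro f hf hs h0
      refine vanish hY h hf hs ?_ ?_ ?_
      · intro A hA
        by_contra hne
        have hz := c1 h hψ hf hA.1 hne
        refine hl ⟨0, zero_mem _, map_zero _, ?_⟩
        intro v hv
        rw [hz v hv, polar_zero_left]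
      · intro A hA
        by_contra hne
        obtain ⟨a, ha, hav⟩ := c2 h hψ hf hA.1 hne
        exact hl ⟨a, hA.1 ha, hA.2.2 a ha, hav⟩
      · intro A hA
        by_contra hne
        have hz := c3 h hψ hf hA hne
        refine hne (h0 _ ⟨A, ⟨?_, hA.2⟩, rfl⟩)
        intro a ha
        exact ⟨hA.1 ha, hz a ha⟩
  obtain ⟨T, hTc, hT, hTr⟩ := T2_reps (Q := Q) (Z := Z) hZ
  have hone : ∃ T' : Finset (Dual k X), T'.card ≤ 1 ∧
      (∀ l ∈ T', ∃ y ∈ Z, y ≠ 0 ∧ Q y = 0 ∧ l = polarBilin Q y) ∧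
      ∀ y ∈ Z, y ≠ 0 → Q y = 0 → ∃ y₀ ∈ Z, y₀ ≠ 0 ∧ Q y₀ = 0 ∧ polarBilin Q y₀ ∈ T' := by
    by_cases hex : ∃ z ∈ Z, z ≠ 0 ∧ Q z = 0
    · obtain ⟨z, hz, hz0, hzq⟩ := hex
      refine ⟨{polarBilin Q z}, by simp, ?_, ?_⟩
      · intro l hl
        exact ⟨z, hz, hz0, hzq, by simpa using hl⟩
      · intro y _ _ _
        exact ⟨z, hz, hz0, hzq, by simp⟩
    · push Not at hex
      refine ⟨∅, by simp, by simp, ?_⟩
      intro y hy hy0 hyq
      exact absurd hyq (hex y hy hy0)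
  obtain ⟨T', hT'c, hT', hT'r⟩ := hone
  have main := cliff3 (K := K) (R := R) (ψ := ψ) h hψ hq
      (S := Sk Q Y j) heH
      (fun i => match i with
        | 0 => {0}
        | 1 => T'
        | 2 => T)
      (fun i => match i with
        | 0 => 3 * 3 ^ (m - 2)
        | 1 => 3 * 3 ^ (m - 4) + 3 ^ (m - 6)
        | 2 => 3 ^ (m - 3)) ?_ ?_
  · rw [Fin.sum_univ_three] at main
    refine Bd_mono main subset_rfl subset_rfl (le_trans ?_ (arith m (by omega)))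
    refine Nat.add_le_add (Nat.add_le_add ?_ ?_) ?_
    · simp
    · calc T'.card * (3 * 3 ^ (m - 4) + 3 ^ (m - 6))
          ≤ 1 * (3 * 3 ^ (m - 4) + 3 ^ (m - 6)) := Nat.mul_le_mul_right _ hT'c
        _ = _ := one_mul _
    · exact Nat.mul_le_mul_right _ hTc
  · intro i
    match i with
    | 0 =>
      intro l hl
      have hl' : l = 0 := by simpa using hl
      rw [hl']
      exact h10
    | 1 =>
      intro l hl
      obtain ⟨y, hy, hy0, hyq, rfl⟩ := hT' l hl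
      exact h11 y hy hy0 hyq
    | 2 =>
      intro l hl
      exact h12 l (hT l hl)
  · intro l
    right
    by_cases hl0 : ∀ v ∈ Z, l v = 0
    · refine ⟨0, 0, by simp, 1, Gr_one, by rw [inv_one]; exact Gr_one, ?_⟩
      intro f hf
      rw [inv_one, act_one]
      rw [WX_congr h l 0 (fun v hv => by rw [hl0 v hv]; rfl)] at hf
      exact hf
    · by_cases hTl : T1 Q Z l
      · obtain ⟨x, hx, hxq, hxl⟩ := hTl
        have hx0 : x ≠ 0 := by
          rintro rfl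
          apply hl0
          intro v hv
          rw [hxl v hv, polar_zero_left]
        obtain ⟨z, hz, hz0, hzq, hzT⟩ := hT'r x hx hx0 hxq
        obtain ⟨g, hg, hgz⟩ := T1_trans hZ z x hz hx hzq hxq hz0 hx0
        refine ⟨1, _, hzT, g, hsub hg, hsub (Gr_inv g hg), ?_⟩
        intro f hf
        refine WX_Gr h g hg l _ ?_ hf
        intro v hv
        rw [hxl _ ((Gr_mem_iff g hg v).2 hv), ← hgz, Gr_polar g hg]
        rfl
      · obtain ⟨l₀, hl₀, g, hg, c, hc, hcl⟩ := hTr l hTl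
        obtain ⟨t, ht, htf⟩ := WX_tor (K := K) (ψ := ψ) h c hc
        refine ⟨2, l₀, hl₀, g * t, Gr_mul _ _ (hsub hg) ht,
          Gr_inv _ (Gr_mul _ _ (hsub hg) ht), ?_⟩
        intro f hf
        rw [mul_inv_rev, act_mul]
        have h1 : act g⁻¹ f ∈ WX K h ψ (l ∘ₗ (g : X →ₗ[k] X)) :=
          WX_Gr h g hg l _ (fun v _ => rfl) hf
        exact htf _ l₀ (fun v hv => hcl v hv) _ h1

theorem Bd_main (hψ : ∃ c, ψ c ≠ 1) (hq : IsUnit ((Nat.card k : ℕ) : R)) (m : ℕ) :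
    ∀ Y : Submodule k X, finrank k Y = m → ND Q Y → ∀ j,
      Bd R K (Gr Q Y) (Sk Q Y j) (3 ^ m) := by
  induction m using Nat.strong_induction_on with
  | _ m ih =>
    intro Y hm hY j
    have hIH : IH R K Q m := fun Y' hY' hnd j' => ih _ hY' Y' rfl hnd j'
    by_cases hex : ∃ z ∈ Y, z ≠ 0 ∧ Q z = 0
    · obtain ⟨p, hp, hp0, hpq⟩ := hex
      obtain ⟨p', h⟩ := exists_HP hY hp hp0 hpq
      exact step hIH hψ hq hY hm h j
    · push Not at hex
      refine Bd_mono (Bd_single (⊥ : Submodule k X)) subset_rfl ?_ (Nat.one_le_pow _ _ (by norm_num))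
      intro W hW
      rw [Set.mem_singleton_iff, Submodule.eq_bot_iff]
      intro x hx
      by_contra hx0
      exact hex x (hW.1 hx) hx0 (hW.2.2 x hx)

end ind

end OG
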