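import Pool.Agent.Helper60.OG.Cliff
import Pool.Agent.Helper60.OG.Geo1
import Pool.Agent.Helper60.OG.Geo2

/-!
Project OG (MP_0bd1d1_al): the induction.
-/

namespace OG

open QuadraticMap Module
open OG.Geo1 OG.Geo2

section pieces

variable {k X K R : Type*} [Field k] [AddCommGroup X] [Module k X]
  {Q : QuadraticForm k X} {Y Z : Submodule k X} {p p' : X} {i j : ℕ}
  [Field K] [CommRing R] [Algebra R K]
  {H : Set (X ≃ₗ[k] X)} {S : Set (Submodule k X)} {n : ℕ}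

/-- Join with a line. -/
abbrev jn (p : X) (A : Submodule k X) : Submodule k X := Submodule.span k {p} ⊔ A

theorem Stb_mono {H' : Set (X ≃ₗ[k] X)} (h : Stb H S) (hH : H' ⊆ H) : Stb H' S :=
  fun g hg => h g (hH hg)

theorem Stb_union {S' : Set (Submodule k X)} (h : Stb H S) (h' : Stb H S') :
    Stb H (S ∪ S') := by
  intro g hg w
  rw [Set.mem_union, Set.mem_union, h g hg w, h' g hg w]

theorem Stb_jn (hfix : ∀ g ∈ H, g p = p) (hS : Stb H S) : Stb H (jn p '' S) := by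
  intro g hg w
  constructor
  · rintro ⟨A, hA, hAw⟩
    refine ⟨g⁻¹ • A, (Stb_inv hS hg A).2 hA, ?_⟩
    have hgi : g⁻¹ p = p := by
      have h1 : g⁻¹ (g p) = p := g.symm_apply_apply p
      rwa [hfix g hg] at h1
    have h2 : w = g⁻¹ • (jn p A) := by rw [hAw, inv_smul_smul]
    rw [h2]
    exact (smul_span_sup g⁻¹ hgi A).symm
  · rintro ⟨A, hA, rfl⟩
    exact ⟨g • A, (hS g hg A).2 hA, (smul_span_sup g (hfix g hg) A).symm⟩

theorem Bd_jn [IsLocalRing R] (hfix : ∀ g ∈ H, g p = p) (hS : Stb H S)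
    (h : Bd R K H S n) : Bd R K H (jn p '' S) n :=
  Bd_image (jn p) hS (fun g hg w _ => (smul_span_sup g (hfix g hg) w).symm) h

end pieces

section cliff

variable {k X K R : Type*} [Field k] [AddCommGroup X] [Module k X]
  {Q : QuadraticForm k X} {Y Z : Submodule k X} {p p' : X} {i j : ℕ}
  [Field K] [CommRing R] [Algebra R K] {ψ : AddChar k R}
  {H : Set (X ≃ₗ[k] X)} {S : Set (Submodule k X)}

/-- The Eichler maps at `p` with parameter in `pp Q Y p p'`. -/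
def eV (h : HP Q Y p p') (v : ↥(pp Q Y p p')) : X ≃ₗ[k] X :=
  eich Q p v.1 h.q1 (mem_pp.1 v.2).2.1

variable (K) in
/-- Functions of weight `l` under `eV h`. -/
def WX (h : HP Q Y p p') (ψ : AddChar k R) (l : Dual k X) :
    Submodule R (Submodule k X → K) :=
  Wt K (eV h) ψ (l.domRestrict (pp Q Y p p'))

theorem WX_Gr (h : HP Q Y p p') (g : X ≃ₗ[k] X) (hg : g ∈ Gr Q (pp Q Y p p')) (l l₀ : Dual k X)
    (hl : ∀ v ∈ pp Q Y p p', l (g v) = l₀ v) {f : Submodule k X → K} (hf : f ∈ WX K h ψ l) :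
    act g⁻¹ f ∈ WX K h ψ l₀ := by
  refine Wt_conj g (fun v => ⟨g v.1, (Gr_mem_iff g hg v.1).2 v.2⟩) ?_ ?_ hf
  · intro v
    have hgp := Gr_fix1 g hg
    have hv := (mem_pp.1 v.2).2.1
    have hgv : polar Q p (g v.1) = 0 :=
      (mem_pp.1 ((Gr_mem_iff g hg v.1).2 v.2)).2.1
    have h1 := eich_conj g hg.1 v.1 h.q1 hv (by rw [hgp]; exact h.q1)
      (by rw [hgp]; exact hgv)
    have h2 : eV h v = eich Q p v.1 h.q1 hv := rfl
    rw [h2, h1]
    unfold eV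
    congr 1
  · intro v
    exact hl v.1 v.2

theorem WX_tor (h : HP Q Y p p') (c : k) (hc : c ≠ 0) : ∃ t ∈ Gr Q Y, ∀ l l₀ : Dual k X,
    (∀ v ∈ pp Q Y p p', c * l v = l₀ v) → ∀ f : Submodule k X → K, f ∈ WX K h ψ l →
      act t⁻¹ f ∈ WX K h ψ l₀ := by
  obtain ⟨t, ht, htp, _, htx⟩ := exists_tor h c hc
  refine ⟨t, ht, fun l l₀ hl f hf => ?_⟩
  refine Wt_conj t (fun v => c • v) ?_ ?_ hf
  · intro v
    have hv := (mem_pp.1 v.2).2.1
    have htv : t v.1 = v.1 := htx v.1 hv (mem_pp.1 v.2).2.2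
    have hq : Q (t p) = 0 := by rw [ht.1]; exact h.q1
    have hq' : Q (c • p) = 0 := by rw [← htp]; exact hq
    have hb : polar Q (t p) (t v.1) = 0 := by rw [Gr_polar t ht]; exact hv
    have hb' : polar Q (c • p) v.1 = 0 := by
      rw [polar_smul_left, hv, smul_zero]
    have hb'' : polar Q p (c • v.1) = 0 := by
      rw [polar_smul_right, hv, smul_zero]
    have h1 := eich_conj t ht.1 v.1 h.q1 hv hq hb
    have h3 : eich Q (t p) (t v.1) hq hb = eich Q (c • p) v.1 hq' hb' := by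
      congr 1
    have h2 : eV h v = eich Q p v.1 h.q1 hv := rfl
    rw [h2, h1, h3, eich_smul c v.1 h.q1 hq' hb' hb'']
    rfl
  · intro v
    have := hl v.1 v.2
    change l (c • v.1) = l₀ v.1
    rw [← this, map_smul, smul_eq_mul]

theorem eV_add (h : HP Q Y p p') (v w : ↥(pp Q Y p p')) :
    eV h (v + w) = eV h v * eV h w :=
  eich_add v.1 w.1 h.q1 _ _ _

theorem WX_congr (h : HP Q Y p p') (l l₀ : Dual k X) (hl : ∀ v ∈ pp Q Y p p', l v = l₀ v) :
    WX K h ψ l = WX K h ψ l₀ := by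
  unfold WX
  congr 1
  ext v
  exact hl v.1 v.2

theorem cliff3 [Finite k] [FiniteDimensional k X] [IsDomain R] [IsLocalRing R]
    (h : HP Q Y p p') (hψ : ∃ c, ψ c ≠ 1) (hq : IsUnit ((Nat.card k : ℕ) : R))
    (heH : ∀ v, eV h v ∈ H) (T : Fin 3 → Finset (Dual k X)) (n : Fin 3 → ℕ)
    (h1 : ∀ i, ∀ l ∈ T i, ∃ (H₀ : Set (X ≃ₗ[k] X)) (B₀ : Set (Submodule k X)),
      Bd R K H₀ B₀ (n i) ∧ H₀ ⊆ H ∧ Stb H₀ B₀ ∧
      (∀ g ∈ H₀, g⁻¹ ∈ Gr Q (pp Q Y p p') ∧ ∀ v ∈ pp Q Y p p', l (g⁻¹ v) = l v) ∧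
      (∀ f : Submodule k X → K, f ∈ WX K h ψ l → f ∈ supS R K S → (∀ w ∈ B₀, f w = 0) → f = 0))
    (h2 : ∀ l, (∀ f : Submodule k X → K, f ∈ WX K h ψ l → f ∈ supS R K S → f = 0) ∨
      ∃ i, ∃ l₀ ∈ T i, ∃ g ∈ H, g⁻¹ ∈ H ∧ ∀ f : Submodule k X → K, f ∈ WX K h ψ l →
        act g⁻¹ f ∈ WX K h ψ l₀) :
    Bd R K H S (∑ i, (T i).card * n i) := by
  have : Finite X := Module.finite_of_finite k
  have hu : IsUnit ((Nat.card (Dual k ↥(pp Q Y p p')) : ℕ) : R) := by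
    rw [Module.natCard_eq_pow_finrank (K := k), Nat.cast_pow]
    exact hq.pow _
  have main := Bd_clifford (K := K) (R := R) (S := S) (eV h) (eV_add h) ψ hψ hu heH
    (Finset.univ.sigma T) (fun c => c.2.domRestrict (pp Q Y p p')) (fun c => n c.1) ?_ ?_
  · rw [Finset.sum_sigma] at main
    simpa using main
  · rintro ⟨i, l⟩ hc
    rw [Finset.mem_sigma] at hc
    obtain ⟨H₀, B₀, hB, hH, hSt, hW, hinj⟩ := h1 i l hc.2
    refine ⟨H₀, B₀, hB, hH, hSt, ?_, hinj⟩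
    intro g hg f hf
    have := WX_Gr h g⁻¹ (hW g hg).1 l l (hW g hg).2 (f := f) hf
    rw [inv_inv] at this
    exact this
  · intro l
    obtain ⟨m, hm⟩ := LinearMap.exists_extend l
    have hm' : m.domRestrict (pp Q Y p p') = l := hm
    rcases h2 m with h' | ⟨i, l₀, hl₀, g, hg, hg', hgf⟩
    · left
      rw [← hm']
      exact h'
    · right
      refine ⟨⟨i, l₀⟩, by simpa using hl₀, g, hg, hg', ?_⟩
      rw [← hm']
      exact hgf

end cliff

end OG
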