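import Pool.Agent.Helper60.OG.Defs

/-!
Project OG (MP_0bd1d1_al): module WA.
-/

namespace OG.WA

open QuadraticMap Module

variable {k X : Type*} [Field k] [AddCommGroup X] [Module k X]
  {Q : QuadraticForm k X} {Y Z : Submodule k X} {p p' : X} {j : ℕ}

/-- the polar form is nondegenerate on `Z` -/
def NDeg (Q : QuadraticForm k X) (Z : Submodule k X) : Prop :=
  ∀ x ∈ Z, (∀ y ∈ Z, polar Q x y = 0) → x = 0

theorem q_sub (x y : X) : Q (x - y) = Q x + Q y - polar Q x y := by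
  rw [sub_eq_add_neg, QuadraticMap.map_add Q, QuadraticMap.map_neg, polar_neg_right]
  ring

theorem q_smul (c : k) (x : X) : Q (c • x) = c * c * Q x := by
  rw [QuadraticMap.map_smul, smul_eq_mul]

theorem p_self (x : X) : polar Q x x = 2 * Q x := by
  rw [polar_self, nsmul_eq_mul, Nat.cast_ofNat]

theorem g_one : (1 : X ≃ₗ[k] X) ∈ Gr Q Z := by
  refine ⟨fun x => rfl, fun x => ?_, fun x _ => rfl⟩
  simp

theorem g_mul (g h : X ≃ₗ[k] X) (hg : g ∈ Gr Q Z) (hh : h ∈ Gr Q Z) : g * h ∈ Gr Q Z := by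
  refine ⟨fun x => ?_, fun x => ?_, fun x hx => ?_⟩
  · rw [LinearEquiv.mul_apply, hg.1, hh.1]
  · rw [LinearEquiv.mul_apply]
    have := Z.add_mem (hg.2.1 (h x)) (hh.2.1 x)
    simpa using this
  · rw [LinearEquiv.mul_apply, hh.2.2 x hx, hg.2.2 x hx]

theorem g_apply_inv (g : X ≃ₗ[k] X) (x : X) : g (g⁻¹ x) = x := by
  rw [← LinearEquiv.mul_apply, mul_inv_cancel]
  rfl

theorem g_inv_apply (g : X ≃ₗ[k] X) (x : X) : g⁻¹ (g x) = x := by
  rw [← LinearEquiv.mul_apply, inv_mul_cancel]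
  rfl

theorem g_inv (g : X ≃ₗ[k] X) (hg : g ∈ Gr Q Z) : g⁻¹ ∈ Gr Q Z := by
  refine ⟨fun x => ?_, fun x => ?_, fun x hx => ?_⟩
  · rw [← hg.1, g_apply_inv]
  · have h1 := hg.2.1 (g⁻¹ x)
    rw [g_apply_inv] at h1
    have := Z.neg_mem h1
    rwa [neg_sub] at this
  · have h1 := hg.2.2 x hx
    conv_lhs => rw [← h1]
    rw [g_inv_apply]

theorem g_polar (g : X ≃ₗ[k] X) (hg : g ∈ Gr Q Z) (x y : X) :
    polar Q (g x) (g y) = polar Q x y := by
  unfold polar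
  rw [← map_add, hg.1, hg.1, hg.1]

theorem g_mem (g : X ≃ₗ[k] X) (hg : g ∈ Gr Q Z) (x : X) : g x ∈ Z ↔ x ∈ Z := by
  have h1 := hg.2.1 x
  constructor
  · intro h
    have := Z.sub_mem h h1
    simpa using this
  · intro h
    have := Z.add_mem h1 h
    simpa using this

theorem refl_ex (u : X) (hu : u ∈ Z) (h : Q u ≠ 0) :
    ∃ g ∈ Gr Q Z, ∀ x, g x = x - (polar Q u x / Q u) • u := by
  obtain ⟨f, hf⟩ : ∃ f : X →ₗ[k] X, ∀ x, f x = x - (polar Q u x / Q u) • u := by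
    refine ⟨LinearMap.id - (Q u)⁻¹ • (polarBilin Q u).smulRight u, fun x => ?_⟩
    simp [smul_smul, div_eq_inv_mul]
  have hinv : Function.Involutive f := by
    intro x
    rw [hf (f x)]
    have h1 : polar Q u (f x) = - polar Q u x := by
      rw [hf, polar_sub_right, polar_smul_right, smul_eq_mul, p_self]
      field_simp
      ring
    rw [h1, hf]
    module
  refine ⟨LinearEquiv.ofInvolutive f hinv, ⟨fun x => ?_, fun x => ?_, fun x hx => ?_⟩, fun x => ?_⟩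
  · change Q (f x) = Q x
    rw [hf, q_sub, q_smul, polar_smul_right, polar_comm Q x u, smul_eq_mul]
    field_simp
    ring
  · change f x - x ∈ Z
    rw [hf]
    have : x - (polar Q u x / Q u) • u - x = (-(polar Q u x / Q u)) • u := by module
    rw [this]
    exact Z.smul_mem _ hu
  · change f x = x
    rw [hf, polar_comm, hx u hu]
    simp
  · exact hf x

theorem eich_in (v : X) (hp : Q p = 0) (hv : polar Q p v = 0) (h1 : p ∈ Z) (h2 : v ∈ Z) :
    eich Q p v hp hv ∈ Gr Q Z := by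
  refine ⟨fun x => ?_, fun x => ?_, fun x hx => ?_⟩
  · rw [eich_apply]
    have e : x + polar Q p x • v - polar Q v x • p - (Q v * polar Q p x) • p =
        x + (polar Q p x • v + (-(polar Q v x) - Q v * polar Q p x) • p) := by module
    have hv' : polar Q v p = 0 := by rw [polar_comm, hv]
    rw [e, QuadraticMap.map_add Q, QuadraticMap.map_add Q, q_smul, q_smul, hp, polar_add_right,
      polar_smul_right, polar_smul_right, polar_smul_right, polar_smul_left, hv', polar_comm Q x v,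
      polar_comm Q x p]
    simp only [smul_eq_mul]
    ring
  · rw [eich_apply]
    have e : x + polar Q p x • v - polar Q v x • p - (Q v * polar Q p x) • p - x =
        polar Q p x • v + (-(polar Q v x) - Q v * polar Q p x) • p := by module
    rw [e]
    exact Z.add_mem (Z.smul_mem _ h2) (Z.smul_mem _ h1)
  · rw [eich_apply, polar_comm Q p x, polar_comm Q v x, hx p h1, hx v h2]
    simp

theorem trans_one (y y' : X) (hy : y ∈ Z) (hy' : y' ∈ Z) (h : Q y = 0)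
    (h' : Q y' = 0) (hb : polar Q y y' ≠ 0) : ∃ g ∈ Gr Q Z, g y = y' := by
  have hQ : Q (y - y') = - polar Q y y' := by
    rw [q_sub, h, h']
    ring
  obtain ⟨g, hg, hg2⟩ := refl_ex (Q := Q) (y - y') (Z.sub_mem hy hy') (by
    rw [hQ]
    exact neg_ne_zero.2 hb)
  refine ⟨g, hg, ?_⟩
  have h1 : polar Q (y - y') y = Q (y - y') := by
    rw [hQ, polar_sub_left, p_self, h, polar_comm Q y' y]
    ring
  rw [hg2, h1, div_self (by rw [hQ]; exact neg_ne_zero.2 hb), one_smul]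
  abel

theorem T1_trans (hZ : ND Q Z) (y y' : X) (hy : y ∈ Z) (hy' : y' ∈ Z) (h : Q y = 0)
    (h' : Q y' = 0) (h0 : y ≠ 0) (h0' : y' ≠ 0) : ∃ g ∈ Gr Q Z, g y = y' := by
  by_cases hb : polar Q y y' = 0
  · obtain ⟨a, ha, ha2⟩ := hZ y hy h0 h
    obtain ⟨b, hb1, hb2⟩ := hZ y' hy' h0' h'
    obtain ⟨z0, hz0, hz1, hz2⟩ : ∃ z0 ∈ Z, polar Q y z0 ≠ 0 ∧ polar Q y' z0 ≠ 0 := by
      by_cases h1 : polar Q y' a = 0
      · by_cases h2 : polar Q y b = 0
        · refine ⟨a + b, Z.add_mem ha hb1, ?_, ?_⟩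
          · rw [polar_add_right, h2, add_zero]
            exact ha2
          · rw [polar_add_right, h1, zero_add]
            exact hb2
        · exact ⟨b, hb1, h2, hb2⟩
      · exact ⟨a, ha, ha2, h1⟩
    obtain ⟨z, hz⟩ : ∃ z, z = z0 - (Q z0 / polar Q y z0) • y := ⟨_, rfl⟩
    have hzZ : z ∈ Z := by
      rw [hz]
      exact Z.sub_mem hz0 (Z.smul_mem _ hy)
    have hQz : Q z = 0 := by
      rw [hz, q_sub, q_smul, h, polar_smul_right, polar_comm Q z0 y, smul_eq_mul]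
      field_simp
      ring
    have hyz : polar Q y z ≠ 0 := by
      rw [hz, polar_sub_right, polar_smul_right, p_self, h]
      simpa using hz1
    have hyz' : polar Q z y' ≠ 0 := by
      rw [polar_comm, hz, polar_sub_right, polar_smul_right, polar_comm Q y' y, hb]
      simpa using hz2
    obtain ⟨g1, hg1, e1⟩ := trans_one y z hy hzZ h hQz hyz
    obtain ⟨g2, hg2, e2⟩ := trans_one z y' hzZ hy' hQz h' hyz'
    refine ⟨g2 * g1, g_mul g2 g1 hg2 hg1, ?_⟩
    rw [LinearEquiv.mul_apply, e1, e2]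
  · exact trans_one y y' hy hy' h h' hb

theorem Cj_refl (l : Dual k X) : Cj Q Z l l :=
  ⟨1, g_one, 1, one_ne_zero, fun v _ => by
    rw [one_mul]
    rfl⟩

theorem Cj_symm (l l0 : Dual k X) (h : Cj Q Z l l0) : Cj Q Z l0 l := by
  obtain ⟨g, hg, c, hc, h1⟩ := h
  refine ⟨g⁻¹, g_inv g hg, c⁻¹, inv_ne_zero hc, fun v hv => ?_⟩
  have h2 : g⁻¹ v ∈ Z := (g_mem g⁻¹ (g_inv g hg) v).2 hv
  rw [← h1 _ h2, g_apply_inv, ← mul_assoc, inv_mul_cancel₀ hc, one_mul]

theorem Cj_trans (l1 l2 l3 : Dual k X) (h : Cj Q Z l1 l2) (h' : Cj Q Z l2 l3) : Cj Q Z l1 l3 := by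
  obtain ⟨g, hg, c, hc, h1⟩ := h
  obtain ⟨g', hg', c', hc', h1'⟩ := h'
  refine ⟨g * g', g_mul g g' hg hg', c' * c, mul_ne_zero hc' hc, fun v hv => ?_⟩
  rw [← h1' v hv, ← h1 _ ((g_mem g' hg' v).2 hv), LinearEquiv.mul_apply, mul_assoc]

theorem trans_ns (hN : NDeg Q Z) (y y' : X) (hy : y ∈ Z) (hy' : y' ∈ Z) (h : Q y = Q y')
    (h0 : Q y ≠ 0) : ∃ g ∈ Gr Q Z, g y = y' := by
  by_cases hw : y - y' = 0
  · exact ⟨1, g_one, by
      change y = y'
      exact sub_eq_zero.1 hw⟩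
  have hwZ : y - y' ∈ Z := Z.sub_mem hy hy'
  have hpw : polar Q (y - y') y = Q (y - y') := by
    rw [q_sub, polar_sub_left, p_self, ← h, polar_comm Q y' y]
    ring
  by_cases hQw : Q (y - y') = 0
  · rw [hQw] at hpw
    have hv : ∃ v ∈ Z, polar Q (y - y') v = 0 ∧ polar Q y v = 1 := by
      by_contra hcon
      push Not at hcon
      have hk : ∀ v ∈ Z, polar Q (y - y') v = 0 → polar Q y v = 0 := by
        intro v hv h1
        by_contra h2
        apply hcon ((polar Q y v)⁻¹ • v) (Z.smul_mem _ hv)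
        · rw [polar_smul_right, h1, smul_zero]
        · rw [polar_smul_right, smul_eq_mul, inv_mul_cancel₀ h2]
      obtain ⟨v0, hv0, hv1⟩ : ∃ v0 ∈ Z, polar Q (y - y') v0 ≠ 0 := by
        by_contra hc
        push Not at hc
        exact hw (hN _ hwZ hc)
      obtain ⟨c, hc⟩ : ∃ c, c = polar Q y v0 / polar Q (y - y') v0 := ⟨_, rfl⟩
      have hyc : y - c • (y - y') = 0 := by
        apply hN _ (Z.sub_mem hy (Z.smul_mem _ hwZ))
        intro v hv
        have h1 := hk (v - (polar Q (y - y') v / polar Q (y - y') v0) • v0)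
          (Z.sub_mem hv (Z.smul_mem _ hv0)) (by
            rw [polar_sub_right, polar_smul_right, smul_eq_mul, div_mul_cancel₀ _ hv1, sub_self])
        rw [polar_sub_right, polar_smul_right, smul_eq_mul] at h1
        rw [polar_sub_left, polar_smul_left, smul_eq_mul, hc]
        rw [← h1]
        field_simp
      rw [sub_eq_zero] at hyc
      apply h0
      rw [hyc, q_smul, hQw, mul_zero]
    obtain ⟨v, hvZ, hv1, hv2⟩ := hv
    refine ⟨eich Q (y - y') v hQw hv1, eich_in v hQw hv1 hwZ hvZ, ?_⟩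
    rw [eich_apply, hpw, polar_comm Q v y, hv2]
    simp
  · obtain ⟨g, hg, hg2⟩ := refl_ex (Q := Q) (y - y') hwZ hQw
    refine ⟨g, hg, ?_⟩
    rw [hg2, hpw, div_self hQw, one_smul]
    abel

theorem rep [FiniteDimensional k X] (hN : NDeg Q Z) (l : Dual k X) :
    ∃ y ∈ Z, ∀ v ∈ Z, l v = polar Q y v := by
  obtain ⟨f, hf⟩ : ∃ f : Z →ₗ[k] Dual k Z, ∀ a b : Z, f a b = polar Q (a : X) (b : X) :=
    ⟨(polarBilin Q).domRestrict₁₂ Z Z, fun a b => rfl⟩
  have hinj : Function.Injective f := by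
    rw [← LinearMap.ker_eq_bot, LinearMap.ker_eq_bot']
    intro a ha
    apply Subtype.ext
    apply hN a a.2
    intro y hy
    have := congrArg (fun g : Dual k Z => g ⟨y, hy⟩) ha
    simpa [hf] using this
  have hsur : Function.Surjective f :=
    (LinearMap.injective_iff_surjective_of_finrank_eq_finrank
      (Subspace.dual_finrank_eq (K := k) (V := Z)).symm).1 hinj
  obtain ⟨y, hy⟩ := hsur (l.comp Z.subtype)
  refine ⟨y, y.2, fun v hv => ?_⟩
  have := congrArg (fun g : Dual k Z => g ⟨v, hv⟩) hy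
  simp only [hf, LinearMap.comp_apply, Submodule.subtype_apply] at this
  exact this.symm

theorem ns_mul [Finite k] (x y : k) (hx : ¬ IsSquare x) (hy : ¬ IsSquare y) : IsSquare (x * y) := by
  classical
  have := Fintype.ofFinite k
  have hx0 : x ≠ 0 := fun h => hx (h ▸ IsSquare.zero)
  have hy0 : y ≠ 0 := fun h => hy (h ▸ IsSquare.zero)
  rw [← quadraticChar_one_iff_isSquare (mul_ne_zero hx0 hy0), map_mul,
    quadraticChar_neg_one_iff_not_isSquare.2 hx, quadraticChar_neg_one_iff_not_isSquare.2 hy]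
  norm_num

theorem sq_two (a b : k) (ha : a ≠ 0) (hb : b ≠ 0) (h : IsSquare (a * b)) :
    ∃ s : k, s ≠ 0 ∧ b = s * s * a := by
  obtain ⟨r, hr⟩ := h
  have hr0 : r ≠ 0 := by
    rintro rfl
    rw [mul_zero] at hr
    exact (mul_ne_zero ha hb) hr
  refine ⟨r / a, div_ne_zero hr0 ha, ?_⟩
  field_simp
  linear_combination hr

theorem sq_three [Finite k] (a b c : k) (ha : a ≠ 0) (hb : b ≠ 0) (hc : c ≠ 0) :
    (∃ s : k, s ≠ 0 ∧ b = s * s * a) ∨ (∃ s : k, s ≠ 0 ∧ c = s * s * a) ∨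
      ∃ s : k, s ≠ 0 ∧ c = s * s * b := by
  by_cases h1 : IsSquare (a * b)
  · exact Or.inl (sq_two a b ha hb h1)
  by_cases h2 : IsSquare (a * c)
  · exact Or.inr (Or.inl (sq_two a c ha hc h2))
  refine Or.inr (Or.inr (sq_two b c hb hc ?_))
  obtain ⟨r, hr⟩ := ns_mul _ _ h1 h2
  refine ⟨r / a, ?_⟩
  field_simp
  linear_combination hr

theorem two_nd (hN : NDeg Q Z) (l1 l2 : Dual k X) (y1 y2 : X) (hy1 : y1 ∈ Z) (hy2 : y2 ∈ Z)
    (e1 : ∀ v ∈ Z, l1 v = polar Q y1 v) (e2 : ∀ v ∈ Z, l2 v = polar Q y2 v) (h2 : Q y2 ≠ 0)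
    (h : ∃ s : k, s ≠ 0 ∧ Q y2 = s * s * Q y1) : Cj Q Z l1 l2 := by
  obtain ⟨s, hs, hs2⟩ := h
  obtain ⟨g, hg, hg2⟩ := trans_ns hN y2 (s • y1) hy2 (Z.smul_mem _ hy1) (by rw [q_smul, hs2]) h2
  refine ⟨g, hg, s, hs, fun v hv => ?_⟩
  rw [e1 _ ((g_mem g hg v).2 hv), e2 v hv, ← g_polar g hg y2 v, hg2, polar_smul_left, smul_eq_mul]

theorem three_nd [Finite k] [FiniteDimensional k X] (hN : NDeg Q Z) (l1 l2 l3 : Dual k X)
    (h1 : ¬ T1 Q Z l1) (h2 : ¬ T1 Q Z l2) (h3 : ¬ T1 Q Z l3) :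
    Cj Q Z l1 l2 ∨ Cj Q Z l1 l3 ∨ Cj Q Z l2 l3 := by
  obtain ⟨y1, m1, e1⟩ := rep hN l1
  obtain ⟨y2, m2, e2⟩ := rep hN l2
  obtain ⟨y3, m3, e3⟩ := rep hN l3
  have q1 : Q y1 ≠ 0 := fun h => h1 ⟨y1, m1, h, e1⟩
  have q2 : Q y2 ≠ 0 := fun h => h2 ⟨y2, m2, h, e2⟩
  have q3 : Q y3 ≠ 0 := fun h => h3 ⟨y3, m3, h, e3⟩
  rcases sq_three (Q y1) (Q y2) (Q y3) q1 q2 q3 with h | h | h
  · exact Or.inl (two_nd hN l1 l2 y1 y2 m1 m2 e1 e2 q2 h)
  · exact Or.inr (Or.inl (two_nd hN l1 l3 y1 y3 m1 m3 e1 e3 q3 h))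
  · exact Or.inr (Or.inr (two_nd hN l2 l3 y2 y3 m2 m3 e2 e3 q3 h))

end OG.WA
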